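import Mathlib

set_option autoImplicit false
open Finset

namespace Pool.Agent.Lib_helper99.GP

variable {n : ℕ}

/-- supermodular set functions -/
structure Sup (z : Finset (Fin n) → ℤ) : Prop where
  empty : z ∅ = 0
  sup : ∀ I J, z I + z J ≤ z (I ∪ J) + z (I ∩ J)

/-- lattice points of the base polytope -/
def Base (z : Finset (Fin n) → ℤ) (x : Fin n → ℤ) : Prop :=
  ∑ i, x i = z univ ∧ ∀ I, z I ≤ ∑ i ∈ I, x i

/-- move one unit from `a` to `b` -/
def ex (x : Fin n → ℤ) (a b : Fin n) : Fin n → ℤ := x + (Pi.single b 1 - Pi.single a 1)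

lemma sum_ex (x : Fin n → ℤ) (a b : Fin n) (X : Finset (Fin n)) :
    ∑ i ∈ X, ex x a b i = ∑ i ∈ X, x i + (if b ∈ X then 1 else 0) - (if a ∈ X then 1 else 0) := by
  unfold ex
  simp only [Pi.add_apply, Pi.sub_apply, sum_sub_distrib, sum_add_distrib, Pi.single_apply,
    Finset.sum_ite_eq']
  ring

/-- tight sets -/
def Tight (z : Finset (Fin n) → ℤ) (x : Fin n → ℤ) (I : Finset (Fin n)) : Prop :=
  ∑ i ∈ I, x i = z I

variable {z : Finset (Fin n) → ℤ}

lemma sum_mod (x : Fin n → ℤ) (I J : Finset (Fin n)) :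
    ∑ i ∈ I ∪ J, x i + ∑ i ∈ I ∩ J, x i = ∑ i ∈ I, x i + ∑ i ∈ J, x i :=
  Finset.sum_union_inter

lemma tight_both (hz : Sup z) {x : Fin n → ℤ} (hx : Base z x) {I J : Finset (Fin n)}
    (hI : Tight z x I) (hJ : Tight z x J) : Tight z x (I ∪ J) ∧ Tight z x (I ∩ J) := by
  have h1 := hz.sup I J
  have h2 := sum_mod x I J
  have h3 := hx.2 (I ∪ J)
  have h4 := hx.2 (I ∩ J)
  unfold Tight at *
  constructor <;> linarith

lemma tight_univ {x : Fin n → ℤ} (hx : Base z x) : Tight z x univ := hx.1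

lemma tight_empty (hz : Sup z) (x : Fin n → ℤ) : Tight z x ∅ := by
  unfold Tight
  rw [Finset.sum_empty, hz.empty]

/-- the exchange relation -/
def Le (z : Finset (Fin n) → ℤ) (x : Fin n → ℤ) (a b : Fin n) : Prop :=
  ∀ I, Tight z x I → a ∈ I → b ∈ I

lemma Le.refl {x : Fin n → ℤ} (a : Fin n) : Le z x a a := fun _ _ h => h
lemma Le.trans {x : Fin n → ℤ} {a b c : Fin n} (h1 : Le z x a b) (h2 : Le z x b c) :
    Le z x a c := fun I hI h => h2 I hI (h1 I hI h)

lemma ex_mem_iff {x : Fin n → ℤ} (hx : Base z x) (a b : Fin n) :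
    Base z (ex x a b) ↔ Le z x a b := by
  constructor
  · intro h I hI ha
    by_contra hb
    have := h.2 I
    rw [sum_ex, if_pos ha, if_neg hb] at this
    unfold Tight at hI
    linarith
  · intro h
    refine ⟨?_, fun I => ?_⟩
    · rw [sum_ex]; simp [hx.1]
    · rw [sum_ex]
      have h1 := hx.2 I
      by_cases ha : a ∈ I
      · by_cases hb : b ∈ I
        · simp [ha, hb, h1]
        · have hn : ¬ Tight z x I := fun ht => hb (h I ht ha)
          have h2 : z I ≠ ∑ i ∈ I, x i := fun he => hn he.symm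
          have : z I < ∑ i ∈ I, x i := lt_of_le_of_ne h1 h2
          simp only [hb, ha, if_true, if_false]
          linarith [Int.add_one_le_iff.2 this]
      · by_cases hb : b ∈ I
        · simp only [hb, ha, if_true, if_false]; linarith
        · simp only [hb, ha, if_false]; linarith

/-- the smallest tight set containing `p` -/
lemma exists_hull (hz : Sup z) {x : Fin n → ℤ} (hx : Base z x) (p : Fin n) :
    ∃ I, p ∈ I ∧ Tight z x I ∧ ∀ t ∈ I, Le z x p t := by
  classical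
  let F : Finset (Finset (Fin n)) := univ.filter (fun I => Tight z x I ∧ p ∈ I)
  have hF : F.Nonempty := ⟨univ, by simp [F, tight_univ hx]⟩
  obtain ⟨I, hI, hmin⟩ := F.exists_min_image Finset.card hF
  simp only [F, mem_filter, mem_univ, true_and] at hI hmin
  refine ⟨I, hI.2, hI.1, fun t ht J hJ hpJ => ?_⟩
  have h1 := (tight_both hz hx hI.1 hJ).2
  have h2 := hmin (I ∩ J) ⟨h1, mem_inter.2 ⟨hI.2, hpJ⟩⟩
  have h3 := Finset.eq_of_subset_of_card_le Finset.inter_subset_left h2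
  rw [← h3] at ht
  exact (mem_inter.1 ht).2

/-- the largest tight set not containing `p` -/
lemma exists_cohull (hz : Sup z) {x : Fin n → ℤ} (hx : Base z x) (p : Fin n) :
    ∃ I, p ∉ I ∧ Tight z x I ∧ ∀ t, t ∉ I → Le z x t p := by
  classical
  let F : Finset (Finset (Fin n)) := univ.filter (fun I => Tight z x I ∧ p ∉ I)
  have hF : F.Nonempty := ⟨∅, by simp [F, tight_empty hz x]⟩
  obtain ⟨I, hI, hmax⟩ := F.exists_max_image Finset.card hF
  simp only [F, mem_filter, mem_univ, true_and] at hI hmax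
  refine ⟨I, hI.2, hI.1, fun t ht J hJ htJ => ?_⟩
  by_contra hpJ
  have h1 := (tight_both hz hx hI.1 hJ).1
  have h2 := hmax (I ∪ J) ⟨h1, by rw [mem_union, not_or]; exact ⟨hI.2, hpJ⟩⟩
  have h3 := Finset.eq_of_subset_of_card_le Finset.subset_union_left h2
  rw [h3] at ht
  exact ht (mem_union_right _ htJ)

/-- exchange property -/
lemma exists_exchange (hz : Sup z) {x w : Fin n → ℤ} (hx : Base z x)
    (hw : Base z w) {a : Fin n} (ha : w a < x a) : ∃ b, x b < w b ∧ Le z x a b := by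
  obtain ⟨I, haI, hI, hle⟩ := exists_hull hz hx a
  by_contra h
  push Not at h
  have h1 : ∀ i ∈ I, w i ≤ x i := by
    intro i hi
    by_contra h2
    push Not at h2
    exact h i h2 (hle i hi)
  have h3 : ∑ i ∈ I, w i < ∑ i ∈ I, x i := Finset.sum_lt_sum h1 ⟨a, haI, ha⟩
  have h4 := hw.2 I
  unfold Tight at hI
  linarith

/-- slack one sets become tight after an exchange -/
lemma tight_ex {x : Fin n → ℤ} (hx : Base z x) {a₁ b₁ : Fin n} {I : Finset (Fin n)}
    (h : Tight z (ex x a₁ b₁) I) :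
    Tight z x I ∨ (a₁ ∈ I ∧ b₁ ∉ I ∧ ∑ i ∈ I, x i = z I + 1) := by
  unfold Tight at *
  rw [sum_ex] at h
  have h1 := hx.2 I
  by_cases ha : a₁ ∈ I
  · by_cases hb : b₁ ∈ I
    · left; simp only [ha, hb, if_true] at h; linarith
    · right
      simp only [ha, hb, if_true, if_false] at h
      exact ⟨ha, hb, by linarith⟩
  · left
    by_cases hb : b₁ ∈ I
    · simp only [ha, hb, if_true, if_false] at h; linarith
    · simp only [ha, hb, if_false] at h; linarith

/-- two arc lemma, absence of the chord `a₁ → b` -/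
lemma two_arc (hz : Sup z) {x : Fin n → ℤ} (hx : Base z x) {a₁ b₁ a b : Fin n}
    (h1 : Le z x a₁ b₁) (h2 : Le z x a b) (h3 : ¬ Le z x a₁ b) :
    Le z (ex x a₁ b₁) a b := by
  intro I hI haI
  by_contra hbI
  rcases tight_ex hx hI with hIx | ⟨ha₁I, hb₁I, hs⟩
  · exact hbI (h2 I hIx haI)
  unfold Le at h3
  push Not at h3
  obtain ⟨J, hJ, ha₁J, hbJ⟩ := h3
  have h5 := hz.sup I J
  have h7 := sum_mod x I J
  have h8 := hx.2 (I ∪ J)
  have h9 := hx.2 (I ∩ J)
  have hU : ¬ Tight z x (I ∪ J) := fun ht => by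
    have := h2 _ ht (mem_union_left _ haI)
    rw [mem_union] at this
    tauto
  have hN : Tight z x (I ∩ J) := by
    unfold Tight at *
    have : z (I ∪ J) < ∑ i ∈ I ∪ J, x i := lt_of_le_of_ne h8 (fun he => hU he.symm)
    linarith [Int.add_one_le_iff.2 this]
  exact hb₁I (mem_inter.1 (h1 _ hN (mem_inter.2 ⟨ha₁I, ha₁J⟩))).1

/-- two arc lemma, absence of the chord `a → b₁` -/
lemma two_arc' (hz : Sup z) {x : Fin n → ℤ} (hx : Base z x) {a₁ b₁ a b : Fin n}
    (h1 : Le z x a₁ b₁) (h2 : Le z x a b) (h3 : ¬ Le z x a b₁) :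
    Le z (ex x a₁ b₁) a b := by
  intro I hI haI
  by_contra hbI
  rcases tight_ex hx hI with hIx | ⟨ha₁I, hb₁I, hs⟩
  · exact hbI (h2 I hIx haI)
  unfold Le at h3
  push Not at h3
  obtain ⟨J, hJ, haJ, hb₁J⟩ := h3
  have h5 := hz.sup I J
  have h7 := sum_mod x I J
  have h8 := hx.2 (I ∪ J)
  have h9 := hx.2 (I ∩ J)
  have hU : ¬ Tight z x (I ∪ J) := fun ht => by
    have := h1 _ ht (mem_union_left _ ha₁I)
    rw [mem_union] at this
    tauto
  have hN : Tight z x (I ∩ J) := by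
    unfold Tight at *
    have : z (I ∪ J) < ∑ i ∈ I ∪ J, x i := lt_of_le_of_ne h8 (fun he => hU he.symm)
    linarith [Int.add_one_le_iff.2 this]
  exact hbI (mem_inter.1 (h2 _ hN (mem_inter.2 ⟨haI, haJ⟩))).1

/-- persistence of the absence of chords -/
lemma persist (hz : Sup z) {x : Fin n → ℤ} (hx : Base z x) {a₁ b₁ p q : Fin n}
    (h1 : Le z x a₁ b₁) (h2 : ¬ Le z x a₁ q) (h3 : ¬ Le z x p q) :
    ¬ Le z (ex x a₁ b₁) p q := by
  unfold Le at h2 h3
  push Not at h2 h3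
  obtain ⟨J, hJ, ha₁J, hqJ⟩ := h2
  obtain ⟨I, hI, hpI, hqI⟩ := h3
  intro hle
  have h4 := (tight_both hz hx hI hJ).1
  have h5 : Tight z (ex x a₁ b₁) (I ∪ J) := by
    unfold Tight at *
    rw [sum_ex, if_pos (mem_union_right _ (h1 J hJ ha₁J)), if_pos (mem_union_right _ ha₁J), h4]
    ring
  have h6 := hle _ h5 (mem_union_left _ hpI)
  rw [mem_union] at h6
  tauto

/-- an exchange with a new target: `c → t`, `a → b` but not `c → b` give `c → b` after `a → t` -/
lemma new_arc (hz : Sup z) {x : Fin n → ℤ} (hx : Base z x) {a b c t : Fin n}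
    (h1 : Le z x a b) (h2 : Le z x c t) (h3 : Le z x a t) (h4 : ¬ Le z x c b) :
    Le z (ex x a t) c b := by
  have h5 : Le z (ex x a b) c t := two_arc' hz hx h1 h2 h4
  have h6 : Base z (ex (ex x a b) c t) :=
    (ex_mem_iff ((ex_mem_iff hx a b).2 h1) c t).2 h5
  have h7 : ex (ex x a b) c t = ex (ex x a t) c b := by
    unfold ex; abel
  rw [h7] at h6
  exact (ex_mem_iff ((ex_mem_iff hx a t).2 h3) c b).1 h6

/-- separation below: a hull of a colour cannot avoid a separating down-set -/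
lemma sep_down (hz : Sup z) {x : Fin n → ℤ} (hx : Base z x) {M₁ M₂ : Finset (Fin n)}
    (hd : Disjoint M₁ M₂) (hm : z M₁ + z M₂ = z (M₁ ∪ M₂)) {c a : Fin n} (hc : c ∈ M₂)
    (ha : a ∈ M₁) (hle : Le z x c a) : ∃ t, Le z x c t ∧ t ∉ M₁ ∪ M₂ := by
  obtain ⟨K, hcK, hK, hKt⟩ := exists_hull hz hx c
  by_contra hcon
  push Not at hcon
  have hsub : K ⊆ M₁ ∪ M₂ := fun t ht => hcon t (hKt t ht)
  have hd' : Disjoint (K ∩ M₁) (K ∩ M₂) :=
    hd.mono Finset.inter_subset_right Finset.inter_subset_right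
  have e1 : (K ∪ M₁) ∪ M₂ = M₁ ∪ M₂ := by
    rw [Finset.union_assoc, Finset.union_eq_right.2 hsub]
  have e2 : (K ∪ M₁) ∩ M₂ = K ∩ M₂ := by
    rw [Finset.union_inter_distrib_right, Finset.disjoint_iff_inter_eq_empty.1 hd,
      Finset.union_empty]
  have e3 : (K ∩ M₁) ∪ (K ∩ M₂) = K := by
    rw [← Finset.inter_union_distrib_left]
    exact Finset.inter_eq_left.2 hsub
  have s1 := hz.sup K M₁
  have s2 := hz.sup (K ∪ M₁) M₂
  rw [e1, e2] at s2
  have s3 : ∑ i ∈ K ∩ M₁, x i + ∑ i ∈ K ∩ M₂, x i = ∑ i ∈ K, x i := by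
    rw [← Finset.sum_union hd', e3]
  have s4 := hx.2 (K ∩ M₁)
  have s5 := hx.2 (K ∩ M₂)
  have ht : Tight z x (K ∩ M₂) := by
    unfold Tight at *
    linarith
  have := hle _ ht (mem_inter.2 ⟨hcK, hc⟩)
  exact Finset.disjoint_left.1 hd ha (mem_inter.1 this).2

/-- separation above -/
lemma sep_up (hz : Sup z) {x : Fin n → ℤ} (hx : Base z x) {A₁ A₂ : Finset (Fin n)}
    (hu : A₁ ∪ A₂ = univ) (hm : z A₁ + z A₂ = z univ + z (A₁ ∩ A₂)) {c a : Fin n} (hc : c ∈ A₂)
    (ha : a ∉ A₂) (hle : Le z x c a) : ∃ t, Le z x t a ∧ t ∈ A₁ ∩ A₂ := by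
  obtain ⟨K, haK, hK, hKt⟩ := exists_cohull hz hx a
  by_contra hcon
  push Not at hcon
  have hsub : A₁ ∩ A₂ ⊆ K := by
    intro t ht
    by_contra h
    exact hcon t (hKt t h) ht
  have e1 : (K ∩ A₁) ∪ (K ∩ A₂) = K := by
    rw [← Finset.inter_union_distrib_left, hu, Finset.inter_univ]
  have e2 : (K ∩ A₁) ∩ (K ∩ A₂) = A₁ ∩ A₂ := by
    rw [← Finset.inter_inter_distrib_left]
    exact Finset.inter_eq_right.2 hsub
  have s1 := hz.sup (K ∩ A₁) (K ∩ A₂)
  rw [e1, e2] at s1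
  have s2 := hz.sup K A₁
  have s3 := hz.sup K A₂
  have e3 : (K ∪ A₁) ∪ (K ∪ A₂) = univ := by
    rw [← Finset.union_union_distrib_left, hu]; simp
  have e4 : (K ∪ A₁) ∩ (K ∪ A₂) = K := by
    rw [← Finset.union_inter_distrib_left]
    exact Finset.union_eq_left.2 hsub
  have s4 := sum_mod x (K ∪ A₁) (K ∪ A₂)
  rw [e3, e4] at s4
  have s5 := hx.2 (K ∪ A₁)
  have s6 := hx.2 (K ∪ A₂)
  have s7 := hx.1
  have ht : Tight z x (K ∪ A₂) := by
    unfold Tight at *
    linarith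
  have := hle _ ht (mem_union_right _ hc)
  rw [mem_union] at this
  tauto

end Pool.Agent.Lib_helper99.GP
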