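import Mathlib

/-!
# Definitions for the theorem on smooth generalized permutohedra
-/

set_option autoImplicit false

namespace Pool.Agent.Lib_helper99.GP.Defs

open Finset

/-- the real point given by an integer point -/
def toReal {d : ℕ} (u : Fin d → ℤ) : Fin d → ℝ := fun i => (u i : ℝ)

/-- a root of type `A_d` in the coordinates of `ℤ^d`: one of `e_i`, `-e_i`, `e_i - e_j` -/
def IsRoot {d : ℕ} (w : Fin d → ℤ) : Prop :=
  ∃ i, w = Pi.single i 1 ∨ w = -Pi.single i 1 ∨ ∃ j, j ≠ i ∧ w = Pi.single i 1 - Pi.single j 1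

/-- the tangent cone of `P` at `x` is the cone generated by the vectors `w i` -/
def Generates {d : ℕ} (P : Set (Fin d → ℝ)) (x : Fin d → ℝ) (w : Fin d → Fin d → ℤ) : Prop :=
  ∀ y : Fin d → ℝ,
    (∃ t : ℝ, 0 ≤ t ∧ ∃ p ∈ P, y = t • (p - x)) ↔
      (∃ c : Fin d → ℝ, (∀ i, 0 ≤ c i) ∧ y = ∑ i, c i • toReal (w i))

/-- the Cayley polytope of `P 0, …, P (m-1)`: the convex hull of all `(e_t, x)` with `x ∈ P t` -/
def Cayley {m d : ℕ} (P : Fin m → Set (Fin d → ℝ)) : Set ((Fin m → ℝ) × (Fin d → ℝ)) :=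
  convexHull ℝ {u | ∃ t, u.1 = Pi.single t 1 ∧ u.2 ∈ P t}

/-- lattice polytopes: convex hulls of finitely many (at least one) integer points -/
def IsLatticePolytope {d : ℕ} (P : Set (Fin d → ℝ)) : Prop :=
  ∃ V : Finset (Fin d → ℤ), V.Nonempty ∧ P = convexHull ℝ (toReal '' (V : Set (Fin d → ℤ)))

/-- Every vertex `x` of `P` has a tangent cone generated by a basis of `ℤ^d` consisting of roots of
type `A_d`, and this is also the tangent cone of `Q` at a vertex `x'`. For `P = Q` this says that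
`P` is smooth with all edges parallel to roots; for both `P, Q` and `Q, P` it says in addition that
`P` and `Q` have the same normal fan. -/
def RootSmooth {d : ℕ} (P Q : Set (Fin d → ℝ)) : Prop :=
  ∀ x ∈ Set.extremePoints ℝ P, ∃ x' ∈ Set.extremePoints ℝ Q,
    ∃ w : Fin d → Fin d → ℤ, IsUnit (Matrix.det (Matrix.of w)) ∧ (∀ i, IsRoot (w i)) ∧
      Generates P x w ∧ Generates Q x' w

/-- The toric ideal over `k` of the set `S` of lattice points (the kernel of the algebra map
`x_u ↦ monomial (u,1)`, `u ∈ S`) is generated by its homogeneous quadratic elements. -/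
def QuadGen (k : Type) [Field k] {G : Type} [AddCommGroup G] (S : G → Prop) : Prop :=
  ∀ φ : MvPolynomial {u : G // S u} k →ₐ[k] AddMonoidAlgebra k (G × ℤ),
    (∀ u, φ (MvPolynomial.X u) = AddMonoidAlgebra.single (u.1, (1 : ℤ)) (1 : k)) →
    RingHom.ker φ = Ideal.span {f | f ∈ RingHom.ker φ ∧ f.IsHomogeneous 2}

end Pool.Agent.Lib_helper99.GP.Defs
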