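import Pool.Agent.Lib_helper99.GP.Basic

set_option autoImplicit false
open Finset

namespace Pool.Agent.Lib_helper99.GP

variable {n k : ℕ}

/-- coloured arcs -/
structure Arc (n k : ℕ) where
  c : Fin k
  s : Fin n
  t : Fin n

/-- the change made by an arc -/
def dl (A : Arc n k) : Fin k → Fin n → ℤ := Pi.single A.c (Pi.single A.t 1 - Pi.single A.s 1)

/-- perform all exchanges of a list of arcs -/
def app (L : List (Arc n k)) (U : Fin k → Fin n → ℤ) : Fin k → Fin n → ℤ := U + (L.map dl).sum

lemma app_nil (U : Fin k → Fin n → ℤ) : app [] U = U := by simp [app]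

lemma app_cons (A : Arc n k) (L : List (Arc n k)) (U : Fin k → Fin n → ℤ) :
    app (A :: L) U = app L (app [A] U) := by
  simp [app, add_assoc]

lemma app_append (L L' : List (Arc n k)) (U : Fin k → Fin n → ℤ) :
    app (L ++ L') U = app L' (app L U) := by
  simp [app, add_assoc]

lemma app_congr_sum {L L' : List (Arc n k)} (U : Fin k → Fin n → ℤ)
    (h : (L.map dl).sum = (L'.map dl).sum) : app L U = app L' U := by
  unfold app; rw [h]

lemma app_single_self (A : Arc n k) (U : Fin k → Fin n → ℤ) :
    app [A] U A.c = ex (U A.c) A.s A.t := by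
  simp [app, dl, ex]

lemma app_single_ne (A : Arc n k) (U : Fin k → Fin n → ℤ) {l : Fin k} (h : l ≠ A.c) :
    app [A] U l = U l := by
  simp [app, dl, h]

lemma dl_split (i : Fin k) (a b c : Fin n) :
    dl (⟨i, a, b⟩ : Arc n k) + dl ⟨i, b, c⟩ = dl ⟨i, a, c⟩ := by
  unfold dl
  rw [← Pi.single_add]
  congr 1
  abel

variable {z : Fin k → Finset (Fin n) → ℤ}

/-- families of lattice points -/
def Val (z : Fin k → Finset (Fin n) → ℤ) (U : Fin k → Fin n → ℤ) : Prop := ∀ l, Base (z l) (U l)

/-- the exchange `a → b` in colour `c` is admissible at `U` -/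
def Ad (z : Fin k → Finset (Fin n) → ℤ) (U : Fin k → Fin n → ℤ) (c : Fin k) (a b : Fin n) :
    Prop := Le (z c) (U c) a b

/-- a list of arcs that can be performed -/
def Ok (z : Fin k → Finset (Fin n) → ℤ) (U : Fin k → Fin n → ℤ) (L : List (Arc n k)) : Prop :=
  (∀ A ∈ L, Ad z U A.c A.s A.t) ∧ L.Pairwise (fun A A' => A.c = A'.c → ¬ Ad z U A.c A.s A'.t)

lemma val_single {U : Fin k → Fin n → ℤ} (hU : Val z U) (A : Arc n k)
    (hA : Ad z U A.c A.s A.t) : Val z (app [A] U) := by
  intro l
  by_cases h : l = A.c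
  · subst h
    rw [app_single_self]
    exact (ex_mem_iff (hU _) _ _).2 hA
  · rw [app_single_ne A U h]; exact hU l

lemma val_of_ok (hz : ∀ l, Sup (z l)) (L : List (Arc n k)) :
    ∀ U : Fin k → Fin n → ℤ, Val z U → Ok z U L → Val z (app L U) := by
  induction L with
  | nil => intro U hU _; rw [app_nil]; exact hU
  | cons A L ih =>
    intro U hU hok
    obtain ⟨h1, h2⟩ := hok
    rw [List.pairwise_cons] at h2
    have hA : Ad z U A.c A.s A.t := h1 A (by simp)
    rw [app_cons]
    apply ih _ (val_single hU A hA)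
    refine ⟨fun A' hA' => ?_, ?_⟩
    · have h3 := h1 A' (by simp [hA'])
      by_cases hc : A'.c = A.c
      · have h4 := h2.1 A' hA' hc.symm
        unfold Ad at *
        rw [hc] at h3 ⊢
        rw [app_single_self]
        exact two_arc (hz _) (hU _) hA h3 h4
      · unfold Ad at *
        rw [app_single_ne A U hc]
        exact h3
    · refine (List.Pairwise.imp_of_mem ?_ h2.2)
      intro A1 A2 hA1 hA2 hR hc
      by_cases hc' : A1.c = A.c
      · have h4 := h2.1 A2 hA2 (hc'.symm.trans hc)
        have h5 := hR hc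
        unfold Ad at *
        rw [hc'] at h5 ⊢
        rw [app_single_self]
        exact persist (hz _) (hU _) hA h4 h5
      · have h5 := hR hc
        unfold Ad at *
        rw [app_single_ne A U hc']
        exact h5

/-- a list of arcs is a walk from `a` to `b` -/
inductive Walk : Fin n → List (Arc n k) → Fin n → Prop
  | nil (a : Fin n) : Walk a [] a
  | cons {A : Arc n k} {L : List (Arc n k)} {b : Fin n} (h : Walk A.t L b) : Walk A.s (A :: L) b

lemma walk_nil_iff {a b : Fin n} : Walk a ([] : List (Arc n k)) b ↔ a = b := by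
  constructor
  · intro h; cases h; rfl
  · rintro rfl; exact Walk.nil a

lemma walk_cons_iff {A : Arc n k} {L : List (Arc n k)} {a b : Fin n} :
    Walk a (A :: L) b ↔ a = A.s ∧ Walk A.t L b := by
  constructor
  · intro h
    cases h with
    | cons h => exact ⟨rfl, h⟩
  · rintro ⟨rfl, h⟩
    exact Walk.cons h

lemma walk_append_iff {L L' : List (Arc n k)} {a b : Fin n} :
    Walk a (L ++ L') b ↔ ∃ c, Walk a L c ∧ Walk c L' b := by
  induction L generalizing a with
  | nil =>
    constructor
    · intro h; exact ⟨a, Walk.nil a, h⟩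
    · rintro ⟨c, h1, h2⟩
      cases h1
      exact h2
  | cons A L ih =>
    rw [List.cons_append, walk_cons_iff, ih]
    constructor
    · rintro ⟨rfl, c, h1, h2⟩
      exact ⟨c, Walk.cons h1, h2⟩
    · rintro ⟨c, h1, h2⟩
      rw [walk_cons_iff] at h1
      exact ⟨h1.1, c, h1.2, h2⟩

lemma sum_dl (L : List (Arc n k)) {a b : Fin n} (h : Walk a L b) :
    ∑ l, (L.map dl).sum l = Pi.single b 1 - Pi.single a 1 := by
  induction h with
  | nil a => simp
  | @cons A L b h ih =>
    have h1 : ∀ l, ((A :: L).map dl).sum l = dl A l + (L.map dl).sum l := by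
      intro l; simp
    simp only [h1]
    rw [Finset.sum_add_distrib, ih]
    have h2 : ∑ l, dl A l = Pi.single A.t 1 - Pi.single A.s 1 := by
      unfold dl
      exact Finset.sum_pi_single' A.c _ _ |>.trans (by simp)
    rw [h2]
    abel

lemma sum_app (L : List (Arc n k)) {a : Fin n} (h : Walk a L a) (U : Fin k → Fin n → ℤ) :
    ∑ l, app L U l = ∑ l, U l := by
  unfold app
  simp only [Pi.add_apply]
  rw [Finset.sum_add_distrib, sum_dl L h, sub_self, add_zero]

/-- pair moves -/
def Step (z : Fin k → Finset (Fin n) → ℤ) (U V : Fin k → Fin n → ℤ) : Prop :=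
  Val z U ∧ Val z V ∧ ∃ i j, i ≠ j ∧ (∀ l, l ≠ i → l ≠ j → V l = U l) ∧ U i + U j = V i + V j

def Conn (z : Fin k → Finset (Fin n) → ℤ) (U V : Fin k → Fin n → ℤ) : Prop :=
  Relation.ReflTransGen (Step z) U V

/-- two arcs forming a closed walk with different colours give a pair move -/
lemma step_two {U V : Fin k → Fin n → ℤ} {i j : Fin k} (hij : i ≠ j) {a b : Fin n}
    (hU : Val z U) (hV : Val z V) (h : V = app [⟨i, a, b⟩, ⟨j, b, a⟩] U) :
    Step z U V := by
  refine ⟨hU, hV, i, j, hij, ?_, ?_⟩
  · intro l h1 h2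
    rw [h, app_cons, app_single_ne _ _ (by exact h2), app_single_ne _ _ (by exact h1)]
  · rw [h]
    simp only [app, dl, List.map_cons, List.map_nil, List.sum_cons, List.sum_nil, Pi.add_apply,
      Pi.single_eq_same, Pi.single_eq_of_ne hij, Pi.single_eq_of_ne hij.symm, Pi.zero_apply]
    abel

/-- excess -/
def dd (x w : Fin n → ℤ) : ℕ := ∑ e, (x e - w e).toNat

/-- total excess -/
def DD (U W : Fin k → Fin n → ℤ) : ℕ := ∑ l, dd (U l) (W l)

lemma dd_tri (x y w : Fin n → ℤ) : dd x w ≤ dd x y + dd y w := by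
  unfold dd
  rw [← Finset.sum_add_distrib]
  apply Finset.sum_le_sum
  intro e _
  omega

lemma DD_tri (U V W : Fin k → Fin n → ℤ) : DD U W ≤ DD U V + DD V W := by
  unfold DD
  rw [← Finset.sum_add_distrib]
  exact Finset.sum_le_sum (fun l _ => dd_tri _ _ _)

lemma dd_self (x : Fin n → ℤ) : dd x x = 0 := by
  unfold dd; simp

lemma dd_ex_le (x : Fin n → ℤ) (a b : Fin n) : dd x (ex x a b) ≤ 1 := by
  unfold dd
  calc ∑ e, (x e - ex x a b e).toNat ≤ ∑ e, (if e = a then 1 else 0) := by
        apply Finset.sum_le_sum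
        intro e _
        unfold ex
        simp only [Pi.add_apply, Pi.sub_apply, Pi.single_apply]
        split_ifs <;> omega
    _ = 1 := by simp

lemma DD_app_le (L : List (Arc n k)) (U : Fin k → Fin n → ℤ) : DD U (app L U) ≤ L.length := by
  induction L generalizing U with
  | nil =>
    rw [app_nil]; unfold DD
    simp [dd_self]
  | cons A L ih =>
    rw [app_cons]
    refine (DD_tri U (app [A] U) _).trans ?_
    have h1 := ih (app [A] U)
    have h2 : DD U (app [A] U) ≤ 1 := by
      unfold DD
      rw [← Finset.add_sum_erase _ _ (mem_univ A.c), app_single_self]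
      have h3 : ∑ x ∈ univ.erase A.c, dd (U x) (app [A] U x) = 0 := by
        apply Finset.sum_eq_zero
        intro l hl
        rw [app_single_ne A U (Finset.ne_of_mem_erase hl), dd_self]
      rw [h3, add_zero]
      exact dd_ex_le _ _ _
    rw [List.length_cons]
    omega

lemma eq_of_DD_zero {U W : Fin k → Fin n → ℤ} (hU : Val z U) (hW : Val z W)
    (h : DD U W = 0) : U = W := by
  funext l e
  have h0 : ∀ e, U l e ≤ W l e := by
    intro e
    have h1 : dd (U l) (W l) = 0 := Finset.sum_eq_zero_iff.1 h l (mem_univ l)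
    have := Finset.sum_eq_zero_iff.1 h1 e (mem_univ e)
    omega
  have h1 : ∑ e, U l e = ∑ e, W l e := by rw [(hU l).1, (hW l).1]
  exact (Finset.sum_eq_sum_iff_of_le (fun e _ => h0 e)).1 h1 e (mem_univ e)

/-- arcs pointing from `U` towards `W` -/
def Tw (U W : Fin k → Fin n → ℤ) (A : Arc n k) : Prop :=
  W A.c A.s < U A.c A.s ∧ U A.c A.t < W A.c A.t

/-- good arcs -/
def Gd (z : Fin k → Finset (Fin n) → ℤ) (U W : Fin k → Fin n → ℤ) (A : Arc n k) : Prop :=
  Tw U W A ∧ Ad z U A.c A.s A.t

lemma dd_ex {x w : Fin n → ℤ} {a b : Fin n} (ha : w a < x a) (hb : x b < w b) :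
    dd (ex x a b) w + 1 = dd x w := by
  have hab : a ≠ b := by rintro rfl; omega
  unfold dd
  have h1 : ∑ e, (x e - w e).toNat = ∑ e, ((ex x a b e - w e).toNat + if e = a then 1 else 0) := by
    apply Finset.sum_congr rfl
    intro e _
    unfold ex
    simp only [Pi.add_apply, Pi.sub_apply, Pi.single_apply]
    by_cases h1 : e = a
    · subst h1
      simp only [if_neg hab, if_true]
      omega
    · by_cases h2 : e = b
      · subst h2
        simp only [if_neg h1, if_true]
        omega
      · simp only [if_neg h1, if_neg h2]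
        omega
  rw [h1, Finset.sum_add_distrib]
  simp

lemma DD_single {U W : Fin k → Fin n → ℤ} {A : Arc n k} (h : Tw U W A) :
    DD (app [A] U) W + 1 = DD U W := by
  unfold DD
  rw [← Finset.add_sum_erase univ (fun l => dd (app [A] U l) (W l)) (mem_univ A.c),
    ← Finset.add_sum_erase univ (fun l => dd (U l) (W l)) (mem_univ A.c), app_single_self]
  have h1 : ∑ x ∈ univ.erase A.c, dd (app [A] U x) (W x) = ∑ x ∈ univ.erase A.c, dd (U x) (W x) := by
    apply Finset.sum_congr rfl
    intro l hl
    rw [app_single_ne A U (Finset.ne_of_mem_erase hl)]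
  rw [h1]
  have h2 := dd_ex h.1 h.2
  omega

lemma DD_app {W : Fin k → Fin n → ℤ} (L : List (Arc n k)) :
    ∀ U : Fin k → Fin n → ℤ, (∀ A ∈ L, Tw U W A) →
    L.Pairwise (fun A A' => A.c = A'.c → A.s ≠ A'.s ∧ A.t ≠ A'.t) →
    DD (app L U) W + L.length = DD U W := by
  induction L with
  | nil => intro U _ _; rw [app_nil]; rfl
  | cons A L ih =>
    intro U h1 h2
    rw [List.pairwise_cons] at h2
    rw [app_cons]
    have hA := h1 A (by simp)
    have h3 : ∀ A' ∈ L, Tw (app [A] U) W A' := by
      intro A' hA'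
      have h4 := h1 A' (by simp [hA'])
      by_cases hc : A'.c = A.c
      · have h5 := h2.1 A' hA' hc.symm
        unfold Tw at *
        rw [hc] at h4 ⊢
        rw [app_single_self]
        unfold ex
        simp only [Pi.add_apply, Pi.sub_apply, Pi.single_apply]
        rw [if_neg (Ne.symm h5.1), if_neg (Ne.symm h5.2)]
        constructor
        · split_ifs <;> omega
        · split_ifs <;> omega
      · unfold Tw at *
        rw [app_single_ne A U hc]
        exact h4
    have h6 := ih (app [A] U) h3 h2.2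
    have h7 := DD_single hA
    rw [List.length_cons]
    omega

lemma pairwise_of_split {α : Type*} (R : α → α → Prop) (L : List α)
    (h : ∀ L1 A L2 A' L3, L = L1 ++ A :: (L2 ++ A' :: L3) → R A A') : L.Pairwise R := by
  induction L with
  | nil => exact List.Pairwise.nil
  | cons A L ih =>
    rw [List.pairwise_cons]
    constructor
    · intro A' hA'
      obtain ⟨L2, L3, rfl⟩ := List.append_of_mem hA'
      exact h [] A L2 A' L3 rfl
    · apply ih
      intro L1 A1 L2 A' L3 he
      exact h (A :: L1) A1 L2 A' L3 (by rw [he]; rfl)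

/-- the walk read off from an orbit -/
def wl {S : Type*} (g : S → S) (F : S → Arc n k) : ℕ → S → List (Arc n k)
  | 0, _ => []
  | r + 1, p => F p :: wl g F r (g p)

lemma wl_length {S : Type*} (g : S → S) (F : S → Arc n k) (r : ℕ) (p : S) :
    (wl g F r p).length = r := by
  induction r generalizing p with
  | zero => rfl
  | succ r ih => rw [wl, List.length_cons, ih]

lemma wl_mem {S : Type*} (g : S → S) (F : S → Arc n k) (r : ℕ) (p : S) :
    ∀ A ∈ wl g F r p, ∃ q, A = F q := by
  induction r generalizing p with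
  | zero => intro A hA; simp [wl] at hA
  | succ r ih =>
    intro A hA
    rw [wl, List.mem_cons] at hA
    rcases hA with rfl | h
    · exact ⟨p, rfl⟩
    · exact ih (g p) A h

lemma wl_walk {S : Type*} (g : S → S) (F : S → Arc n k) (hF : ∀ p, (F p).t = (F (g p)).s)
    (r : ℕ) (p : S) : Walk (F p).s (wl g F r p) (F (g^[r] p)).s := by
  induction r generalizing p with
  | zero => exact Walk.nil _
  | succ r ih =>
    rw [wl, Function.iterate_succ_apply]
    apply Walk.cons
    rw [hF]
    exact ih (g p)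

lemma exists_closed (hz : ∀ l, Sup (z l)) {U W : Fin k → Fin n → ℤ}
    (hU : Val z U) (hW : Val z W) (hs : ∑ l, U l = ∑ l, W l) (hne : U ≠ W) :
    ∃ (r : ℕ) (L : List (Arc n k)) (v : Fin n), 0 < r ∧ L.length = r ∧ Walk v L v ∧
      ∀ A ∈ L, Gd z U W A := by
  classical
  have hb : ∀ s : {p : Fin k × Fin n // W p.1 p.2 < U p.1 p.2}, ∃ b, U s.1.1 b < W s.1.1 b ∧
      Ad z U s.1.1 s.1.2 b := fun s => exists_exchange (hz _) (hU _) (hW _) s.2
  choose b hb1 hb2 using hb
  have hgx : ∀ s : {p : Fin k × Fin n // W p.1 p.2 < U p.1 p.2},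
      ∃ s' : {p : Fin k × Fin n // W p.1 p.2 < U p.1 p.2}, s'.1.2 = b s := by
    intro s
    by_contra h
    push Not at h
    have h' : ∀ j, U j (b s) ≤ W j (b s) := by
      intro j
      by_contra hj
      push Not at hj
      exact h ⟨(j, b s), hj⟩ rfl
    have h1 : ∑ j, U j (b s) < ∑ j, W j (b s) :=
      Finset.sum_lt_sum (fun j _ => h' j) ⟨s.1.1, mem_univ _, hb1 s⟩
    have h2 := congrFun hs (b s)
    rw [Finset.sum_apply, Finset.sum_apply] at h2
    omega
  choose g hg using hgx
  obtain ⟨s₀⟩ : Nonempty {p : Fin k × Fin n // W p.1 p.2 < U p.1 p.2} := by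
    by_contra h
    rw [not_nonempty_iff] at h
    apply hne
    apply eq_of_DD_zero hU hW
    unfold DD dd
    apply Finset.sum_eq_zero
    intro l _
    apply Finset.sum_eq_zero
    intro e _
    have : ¬ (W l e < U l e) := fun h' => h.false ⟨(l, e), h'⟩
    omega
  obtain ⟨m, m', hmm, hme⟩ := Finite.exists_ne_map_eq_of_infinite (fun m : ℕ => g^[m] s₀)
  obtain ⟨p, r, hr, hp⟩ : ∃ p r, 0 < r ∧ g^[r] p = p := by
    rcases lt_or_gt_of_ne hmm with h | h
    · refine ⟨g^[m] s₀, m' - m, by omega, ?_⟩
      rw [← Function.iterate_add_apply, Nat.sub_add_cancel h.le]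
      exact hme.symm
    · refine ⟨g^[m'] s₀, m - m', by omega, ?_⟩
      rw [← Function.iterate_add_apply, Nat.sub_add_cancel h.le]
      exact hme
  let F : {p : Fin k × Fin n // W p.1 p.2 < U p.1 p.2} → Arc n k := fun s => ⟨s.1.1, s.1.2, b s⟩
  have hw := wl_walk g F (fun p => (hg p).symm) r p
  rw [hp] at hw
  refine ⟨r, wl g F r p, _, hr, wl_length g F r p, hw, ?_⟩
  intro A hA
  obtain ⟨q, rfl⟩ := wl_mem g F r p A hA
  exact ⟨⟨q.2, hb1 q⟩, hb2 q⟩

/-- absence of chords between two arcs -/
def NC (z : Fin k → Finset (Fin n) → ℤ) (U : Fin k → Fin n → ℤ) (A A' : Arc n k) : Prop :=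
  A.c = A'.c → ¬ Ad z U A.c A.s A'.t ∧ ¬ Ad z U A.c A'.s A.t

lemma NC.symm {U : Fin k → Fin n → ℤ} {A A' : Arc n k} (h : NC z U A A') : NC z U A' A := by
  intro hc
  have := h hc.symm
  rw [hc.symm] at this
  exact ⟨this.2, this.1⟩

/-- a shortest closed good walk -/
lemma exists_min (z : Fin k → Finset (Fin n) → ℤ) {U W : Fin k → Fin n → ℤ} {L : List (Arc n k)}
    {v : Fin n} (hw : Walk v L v) (hne : L ≠ []) (hgd : ∀ A ∈ L, Gd z U W A) :
    ∃ (M : List (Arc n k)) (y : Fin n), Walk y M y ∧ M ≠ [] ∧ (∀ A ∈ M, Gd z U W A) ∧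
      M.length ≤ L.length ∧ M.Pairwise (NC z U) ∧ DD (app M U) W + M.length = DD U W := by
  classical
  have hex : ∃ r, ∃ (L : List (Arc n k)) (v : Fin n), 0 < r ∧ L.length = r ∧ Walk v L v ∧
      ∀ A ∈ L, Gd z U W A := ⟨L.length, L, v, List.length_pos_iff.2 hne, rfl, hw, hgd⟩
  obtain ⟨M, y, hr, hlen, hwM, hgM⟩ := Nat.find_spec hex
  have hmin : ∀ (M' : List (Arc n k)) (y : Fin n), Walk y M' y → M' ≠ [] →
      (∀ A ∈ M', Gd z U W A) → M.length ≤ M'.length := by
    intro M' y h1 h2 h3
    rw [hlen]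
    apply Nat.find_min' hex
    exact ⟨M', y, List.length_pos_iff.2 h2, rfl, h1, h3⟩
  have hM : 0 < M.length := by rw [hlen]; exact hr
  clear hlen hr
  have hnc : M.Pairwise (NC z U) := by
    apply pairwise_of_split
    intro L1 A L2 A' L3 he hc
    rw [he, walk_append_iff] at hwM
    obtain ⟨a', hw1, hwM⟩ := hwM
    rw [walk_cons_iff, walk_append_iff] at hwM
    obtain ⟨haa, c', hw2, hwM⟩ := hwM
    rw [walk_cons_iff] at hwM
    obtain ⟨hcc, hw3⟩ := hwM
    rw [haa] at hw1
    rw [hcc] at hw2
    have hgA : Gd z U W A := hgM A (by rw [he]; simp)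
    have hgA' : Gd z U W A' := hgM A' (by rw [he]; simp)
    constructor
    · intro hch
      have h1 := hmin (L1 ++ ⟨A.c, A.s, A'.t⟩ :: L3) y
        (walk_append_iff.2 ⟨A.s, hw1, Walk.cons (A := ⟨A.c, A.s, A'.t⟩) hw3⟩) (by simp) (by
          intro X hX
          rw [List.mem_append, List.mem_cons] at hX
          rcases hX with h | rfl | h
          · exact hgM X (by rw [he]; simp [h])
          · refine ⟨⟨hgA.1.1, ?_⟩, hch⟩
            have := hgA'.1.2
            rw [← hc] at this
            exact this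
          · exact hgM X (by rw [he]; simp [h]))
      rw [he] at h1
      simp only [List.length_append, List.length_cons] at h1
      omega
    · intro hch
      have h1 := hmin (⟨A.c, A'.s, A.t⟩ :: L2) A'.s
        (Walk.cons (A := ⟨A.c, A'.s, A.t⟩) hw2) (by simp) (by
          intro X hX
          rw [List.mem_cons] at hX
          rcases hX with rfl | h
          · refine ⟨⟨?_, hgA.1.2⟩, hch⟩
            have := hgA'.1.1
            rw [← hc] at this
            exact this
          · exact hgM X (by rw [he]; simp [h]))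
      rw [he] at h1
      simp only [List.length_append, List.length_cons] at h1
      omega
  have hdist : M.Pairwise (fun A A' => A.c = A'.c → A.s ≠ A'.s ∧ A.t ≠ A'.t) := by
    refine List.Pairwise.imp_of_mem ?_ hnc
    intro A A' hA hA' hn hc
    have h1 := hn hc
    have h2 := (hgM A' hA').2
    rw [← hc] at h2
    constructor
    · intro he
      apply h1.1
      rw [he]
      exact h2
    · intro he
      apply h1.2
      rw [he]
      exact h2
  exact ⟨M, y, hwM, List.length_pos_iff.1 hM, hgM, hmin L v hw hne hgd, hnc,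
    DD_app M U (fun A hA => (hgM A hA).1) hdist⟩

end Pool.Agent.Lib_helper99.GP
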