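import Pool.Agent.Lib_helper99.GP.Fam

set_option autoImplicit false
open Finset

namespace Pool.Agent.Lib_helper99.GP

variable {n k : ℕ}

/-- the tree property of the exchange order at a point -/
structure Tre (z : Finset (Fin n) → ℤ) (x : Fin n → ℤ) : Prop where
  down : ∀ v p q, Le z x v p → Le z x v q → ¬ Le z x p v → ¬ Le z x q v →
    (∃ g, Le z x v g ∧ ¬ Le z x g v ∧ Le z x g p ∧ Le z x g q) ∨
    ∃ M₁ M₂ : Finset (Fin n), p ∈ M₁ ∧ q ∈ M₂ ∧ Tight z x M₁ ∧ Tight z x M₂ ∧ Disjoint M₁ M₂ ∧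
      ∀ g, g ∉ M₁ ∪ M₂ ↔ Le z x g v
  up : ∀ v p q, Le z x p v → Le z x q v → ¬ Le z x v p → ¬ Le z x v q →
    (∃ g, Le z x g v ∧ ¬ Le z x v g ∧ Le z x p g ∧ Le z x q g) ∨
    ∃ A₁ A₂ : Finset (Fin n), p ∈ A₁ ∧ p ∉ A₂ ∧ q ∈ A₂ ∧ q ∉ A₁ ∧ Tight z x A₁ ∧ Tight z x A₂ ∧
      A₁ ∪ A₂ = univ ∧ ∀ g, g ∈ A₁ ∩ A₂ ↔ Le z x v g

/-- fences: zigzags of length `k`, starting downwards (`true`) or upwards (`false`) -/
def Fn (R : Fin n → Fin n → Prop) : ℕ → Bool → Fin n → Fin n → Prop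
  | 0, _, p, c => p = c
  | k + 1, true, p, c => ∃ f, R f p ∧ Fn R k false f c
  | k + 1, false, p, c => ∃ g, R p g ∧ Fn R k true g c

section
variable {z : Finset (Fin n) → ℤ} {x : Fin n → ℤ}

lemma fence_M {v b c : Fin n} (hvb : Le z x v b) {M₁ M₂ : Finset (Fin n)}
    (hM₁ : Tight z x M₁) (hM₂ : Tight z x M₂) (hd : Disjoint M₁ M₂)
    (hc : ∀ g, g ∉ M₁ ∪ M₂ ↔ Le z x g v) : ∀ k g, g ∈ M₂ → Fn (Le z x) k true g c →
    (∀ k' ≤ k, ¬ Fn (Le z x) k' true b c) → c ∈ M₂ := by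
  have key : ∀ f g, g ∈ M₂ → Le z x f g → ¬ Le z x f b → f ∈ M₂ := by
    intro f g hg hfg hfb
    have h1 : ¬ Le z x f v := fun h => hfb (h.trans hvb)
    have h2 : f ∈ M₁ ∪ M₂ := by
      by_contra h
      exact h1 ((hc f).1 h)
    rcases mem_union.1 h2 with h | h
    · exact absurd hg (Finset.disjoint_left.1 hd (hfg _ hM₁ h))
    · exact h
  intro k
  induction k using Nat.strong_induction_on with
  | _ k ih =>
    intro g hg hF hmin
    match k, ih, hF, hmin with
    | 0, _, hF, _ => rw [← (show g = c from hF)]; exact hg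
    | 1, _, hF, hmin =>
      obtain ⟨f, hfg, hfc⟩ := hF
      have hfc : f = c := hfc
      subst hfc
      exact key f g hg hfg (fun h => hmin 1 le_rfl ⟨f, h, rfl⟩)
    | k + 2, ih, hF, hmin =>
      obtain ⟨f, hfg, h, hfh, hF'⟩ := hF
      have hf := key f g hg hfg (fun h' => hmin (k + 2) le_rfl ⟨f, h', h, hfh, hF'⟩)
      exact ih k (by omega) h (hfh _ hM₂ hf) hF' (fun k' hk' => hmin k' (by omega))

lemma fence_A {a v b c : Fin n} (hab : Le z x a b) (hav : Le z x a v) {A₁ A₂ : Finset (Fin n)}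
    (hA₁ : Tight z x A₁) (hA₂ : Tight z x A₂) (hu : A₁ ∪ A₂ = univ)
    (hc : ∀ g, g ∈ A₁ ∩ A₂ ↔ Le z x v g) : ∀ k f, f ∉ A₁ → Fn (Le z x) k false f c →
    (∀ k' < k + 3, ¬ Fn (Le z x) k' true b c) → c ∉ A₁ := by
  have key : ∀ f g, f ∉ A₁ → Le z x f g → ¬ Le z x a g → g ∉ A₁ := by
    intro f g hf hfg hag hg
    have h1 : f ∈ A₂ := by
      have : f ∈ A₁ ∪ A₂ := by rw [hu]; exact mem_univ f
      rcases mem_union.1 this with h | h
      · exact absurd h hf
      · exact h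
    exact hag (hav.trans ((hc g).1 (mem_inter.2 ⟨hg, hfg _ hA₂ h1⟩)))
  intro k
  induction k using Nat.strong_induction_on with
  | _ k ih =>
    intro f hf hF hmin
    match k, ih, hF, hmin with
    | 0, _, hF, _ => rw [← (show f = c from hF)]; exact hf
    | 1, _, hF, hmin =>
      obtain ⟨g, hfg, hgc⟩ := hF
      have hgc : g = c := hgc
      subst hgc
      exact key f g hf hfg (fun h => hmin 2 (by omega) ⟨a, hab, g, h, rfl⟩)
    | k + 2, ih, hF, hmin =>
      obtain ⟨g, hfg, h, hhg, hF'⟩ := hF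
      have hg := key f g hf hfg
        (fun h' => hmin (k + 3) (by omega) ⟨a, hab, g, h', h, hhg, hF'⟩)
      exact ih k (by omega) h (fun h' => hg (hhg _ hA₁ h')) hF' (fun k' hk' => hmin k' (by omega))

lemma fence_persist (hz : Sup z) (hx : Base z x) {a t b c : Fin n} (hab : Le z x a b)
    (hat : Le z x a t) : ∀ k f, Fn (Le z x) k false f c →
    (∀ k' < k + 3, ¬ Fn (Le z x) k' true b c) → Fn (Le z (ex x a t)) k false f c := by
  intro k
  induction k using Nat.strong_induction_on with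
  | _ k ih =>
    intro f hF hmin
    match k, ih, hF, hmin with
    | 0, _, hF, _ => exact hF
    | 1, _, hF, hmin =>
      obtain ⟨g, hfg, hgc⟩ := hF
      have hgc : g = c := hgc
      subst hgc
      exact ⟨g, two_arc hz hx hat hfg (fun h => hmin 2 (by omega) ⟨a, hab, g, h, rfl⟩), rfl⟩
    | k + 2, ih, hF, hmin =>
      obtain ⟨g, hfg, h, hhg, hF'⟩ := hF
      have hag : ¬ Le z x a g :=
        fun h' => hmin (k + 3) (by omega) ⟨a, hab, g, h', h, hhg, hF'⟩
      exact ⟨g, two_arc hz hx hat hfg hag, h, two_arc hz hx hat hhg hag,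
        ih k (by omega) h hF' (fun k' hk' => hmin k' (by omega))⟩

/-- fences can be prolonged -/
lemma fence_ext (R : Fin n → Fin n → Prop) (hR : ∀ a, R a a) {g h : Fin n}
    (hgh : R g h ∨ R h g) : ∀ k s p, Fn R k s p g → ∃ k', Fn R k' s p h := by
  intro k
  induction k with
  | zero =>
    intro s p hp
    have hp : p = g := hp
    subst hp
    cases s with
    | true =>
      rcases hgh with h1 | h1
      · exact ⟨2, p, hR p, h, h1, rfl⟩
      · exact ⟨1, h, h1, rfl⟩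
    | false =>
      rcases hgh with h1 | h1
      · exact ⟨1, h, h1, rfl⟩
      · exact ⟨2, p, hR p, h, h1, rfl⟩
  | succ k ih =>
    intro s p hp
    cases s with
    | true =>
      obtain ⟨f, h1, h2⟩ := hp
      obtain ⟨k', hk'⟩ := ih false f h2
      exact ⟨k' + 1, f, h1, hk'⟩
    | false =>
      obtain ⟨f, h1, h2⟩ := hp
      obtain ⟨k', hk'⟩ := ih true f h2
      exact ⟨k' + 1, f, h1, hk'⟩

lemma tight_of_up (hz : Sup z) (hx : Base z x) {S : Finset (Fin n)}
    (hS : ∀ p ∈ S, ∀ q, Le z x p q → q ∈ S) : Tight z x S := by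
  classical
  have h : ∀ T : Finset (Fin n), T ⊆ S → ∃ I, Tight z x I ∧ T ⊆ I ∧ I ⊆ S := by
    intro T
    induction T using Finset.induction_on with
    | empty => intro _; exact ⟨∅, tight_empty hz x, by simp, by simp⟩
    | insert p T hp ih =>
      intro hT
      obtain ⟨I, h1, h2, h3⟩ := ih (fun q hq => hT (mem_insert_of_mem hq))
      obtain ⟨J, h4, h5, h6⟩ := exists_hull hz hx p
      refine ⟨I ∪ J, (tight_both hz hx h1 h5).1, ?_, ?_⟩
      · intro q hq
        rcases mem_insert.1 hq with rfl | hq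
        · exact mem_union_right _ h4
        · exact mem_union_left _ (h2 hq)
      · intro q hq
        rcases mem_union.1 hq with hq | hq
        · exact h3 hq
        · exact hS p (hT (mem_insert_self _ _)) q (h6 q hq)
  obtain ⟨I, h1, h2, h3⟩ := h S (Finset.Subset.refl S)
  rwa [Finset.Subset.antisymm h3 h2] at h1

end

/-- common modular pairs -/
def SameMod (z z' : Finset (Fin n) → ℤ) : Prop :=
  ∀ I J, z I + z J = z (I ∪ J) + z (I ∩ J) → z' I + z' J = z' (I ∪ J) + z' (I ∩ J)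

lemma exists_fence {z z' : Finset (Fin n) → ℤ} (hz : Sup z) (hz' : Sup z') (hm : SameMod z z')
    {x x' : Fin n → ℤ} (hx : Base z x) (hx' : Base z' x') {a b c : Fin n} (hab : Le z x a b)
    (hca : Le z' x' c a) : ∃ ρ, Fn (Le z x) ρ true b c := by
  classical
  by_contra hcon
  let C : Finset (Fin n) := univ.filter (fun g => ∃ ρ, Fn (Le z x) ρ true b g)
  have hC : ∀ g, g ∈ C ↔ ∃ ρ, Fn (Le z x) ρ true b g := by intro g; simp [C]
  have hcl : ∀ g h, (Le z x g h ∨ Le z x h g) → g ∈ C → h ∈ C := by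
    intro g h hgh hg
    obtain ⟨ρ, hρ⟩ := (hC g).1 hg
    exact (hC h).2 (fence_ext _ (fun a => Le.refl a) hgh ρ true b hρ)
  have hbC : b ∈ C := (hC b).2 ⟨0, rfl⟩
  have haC : a ∈ C := hcl b a (Or.inr hab) hbC
  have hcC : c ∈ Cᶜ := by rw [mem_compl, hC]; exact hcon
  have t1 : Tight z x C := tight_of_up hz hx (fun p hp q hq => hcl p q (Or.inl hq) hp)
  have t2 : Tight z x Cᶜ := tight_of_up hz hx (fun p hp q hq => by
    rw [mem_compl] at hp ⊢
    exact fun h => hp (hcl q p (Or.inr hq) h))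
  have hd : Disjoint C Cᶜ := disjoint_compl_right
  have hi : C ∩ Cᶜ = ∅ := Finset.disjoint_iff_inter_eq_empty.1 hd
  have hu : C ∪ Cᶜ = univ := Finset.union_compl C
  have h1 : z C + z Cᶜ = z (C ∪ Cᶜ) + z (C ∩ Cᶜ) := by
    rw [← t1, ← t2, hu, hi, hz.empty, ← hx.1]
    have := sum_mod x C Cᶜ
    rw [hu, hi] at this
    simp only [Finset.sum_empty] at this
    linarith
  have h2 := hm _ _ h1
  rw [hi, hz'.empty, add_zero] at h2
  obtain ⟨t, _, ht⟩ := sep_down hz' hx' hd h2 hcC haC hca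
  rw [hu] at ht
  exact ht (mem_univ t)

end Pool.Agent.Lib_helper99.GP
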