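import Pool.Agent.Lib_helper99.GP.Glue
import Pool.Agent.Lib_helper99.GP.Defs

set_option autoImplicit false

namespace Pool.Agent.Lib_helper99.GP.Final

open Finset Pool.Agent.Lib_helper99 Pool.Agent.Lib_helper99.GP.Defs

lemma root_of {d : ℕ} {w : Fin d → ℤ} (h : IsRoot w) : GP.Root w := by
  obtain ⟨i, h | h | ⟨j, _, h⟩⟩ := h
  · exact ⟨i, Or.inl h⟩
  · exact ⟨i, Or.inr (Or.inl h)⟩
  · exact ⟨i, Or.inr (Or.inr ⟨j, h⟩)⟩

lemma exists_sys {m d : ℕ} (V : Fin m → Finset (Fin d → ℤ)) (P : Fin m → Set (Fin d → ℝ))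
    (hne : ∀ t, (V t).Nonempty)
    (hP : ∀ t, P t = convexHull ℝ (toReal '' (V t : Set (Fin d → ℤ))))
    (hs : ∀ s t, ∀ x ∈ Set.extremePoints ℝ (P s), ∃ x' ∈ Set.extremePoints ℝ (P t),
      ∃ w : Fin d → Fin d → ℤ, IsUnit (Matrix.det (Matrix.of w)) ∧ (∀ i, IsRoot (w i)) ∧
        Generates (P s) x w ∧ Generates (P t) x' w) :
    ∃ z, GP.Sys P z := by
  apply GP.sys_of_smooth V P hne hP
  intro s t x hx
  obtain ⟨x', hx', w, h1, h2, h3, h4⟩ := hs s t x hx
  exact ⟨x', hx', w, h1, fun i => root_of (h2 i), h3, h4⟩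

lemma cayley_fst {m d : ℕ} {P : Fin m → Set (Fin d → ℝ)} {u : (Fin m → ℝ) × (Fin d → ℝ)}
    (hu : u ∈ Cayley P) : (∀ t, 0 ≤ u.1 t) ∧ ∑ t, u.1 t = 1 := by
  have h1 : Cayley P ⊆ {u | (∀ t, 0 ≤ u.1 t) ∧ ∑ t, u.1 t = 1} := by
    apply convexHull_min
    · rintro ⟨a, x⟩ ⟨t, ht, -⟩
      simp only at ht
      subst ht
      refine ⟨fun s => ?_, ?_⟩
      · by_cases h : s = t
        · subst h; simp
        · simp [h]
      · simp
    · rintro a ⟨ha, ha'⟩ b ⟨hb, hb'⟩ p q hp hq hpq
      refine ⟨fun t => ?_, ?_⟩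
      · have := add_nonneg (mul_nonneg hp (ha t)) (mul_nonneg hq (hb t))
        simpa using this
      · have : ∑ t, (p * a.1 t + q * b.1 t) = 1 := by
          rw [Finset.sum_add_distrib, ← Finset.mul_sum, ← Finset.mul_sum, ha', hb', mul_one,
            mul_one, hpq]
        simpa using this
  exact h1 hu

lemma cayley_iff {m d : ℕ} {P : Fin m → Set (Fin d → ℝ)} (hP : ∀ t, Convex ℝ (P t)) (t : Fin m)
    (x : Fin d → ℝ) : ((Pi.single t 1, x) : (Fin m → ℝ) × (Fin d → ℝ)) ∈ Cayley P ↔ x ∈ P t := by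
  constructor
  · intro hx
    -- the set of points that are in the face or have a smaller coordinate
    have h1 : Cayley P ⊆ {u | u.1 t ≤ 1 ∧ (u.1 t = 1 → u.2 ∈ P t)} := by
      apply convexHull_min
      · rintro ⟨a, y⟩ ⟨s, hs, hy⟩
        simp only at hs hy
        subst hs
        by_cases h : t = s
        · subst h
          exact ⟨by simp, fun _ => hy⟩
        · exact ⟨by simp [h], fun h' => by simp [h] at h'⟩
      · rintro a ⟨ha, ha'⟩ b ⟨hb, hb'⟩ p q hp hq hpq
        have e1 : (p • a + q • b).1 t = p * a.1 t + q * b.1 t := rfl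
        have e2 : (p • a + q • b).2 = p • a.2 + q • b.2 := rfl
        simp only [Set.mem_ofPred_eq]
        rw [e1, e2]
        have g1 := mul_nonneg hp (sub_nonneg.2 ha)
        have g2 := mul_nonneg hq (sub_nonneg.2 hb)
        refine ⟨by nlinarith, fun h => ?_⟩
        have g3 : p * (1 - a.1 t) = 0 := by nlinarith
        have g4 : q * (1 - b.1 t) = 0 := by nlinarith
        rcases eq_or_lt_of_le hp with hp0 | hp0
        · have hq1 : q = 1 := by linarith
          rw [← hp0, hq1, zero_smul, zero_add, one_smul]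
          apply hb'
          rw [hq1] at g4; linarith
        · rcases eq_or_lt_of_le hq with hq0 | hq0
          · have hp1 : p = 1 := by linarith
            rw [← hq0, hp1, zero_smul, add_zero, one_smul]
            apply ha'
            rw [hp1] at g3; linarith
          · have g5 : a.1 t = 1 := by
              rcases mul_eq_zero.1 g3 with h0 | h0
              · exact absurd h0 hp0.ne'
              · linarith
            have g6 : b.1 t = 1 := by
              rcases mul_eq_zero.1 g4 with h0 | h0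
              · exact absurd h0 hq0.ne'
              · linarith
            exact hP t (ha' g5) (hb' g6) hp hq hpq
    exact (h1 hx).2 (by simp)
  · intro hx
    exact subset_convexHull ℝ _ ⟨t, rfl, hx⟩

lemma exists_single {m : ℕ} {p : Fin m → ℤ} (h0 : ∀ t, (0 : ℝ) ≤ (p t : ℝ))
    (h1 : ∑ t, (p t : ℝ) = 1) : ∃ t, p = Pi.single t 1 := by
  have h0' : ∀ t, 0 ≤ p t := fun t => by exact_mod_cast h0 t
  have h1' : ∑ t, p t = 1 := by exact_mod_cast h1
  obtain ⟨t, ht⟩ : ∃ t, 1 ≤ p t := by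
    by_contra h
    push Not at h
    have : ∑ t, p t ≤ 0 := Finset.sum_nonpos (fun t _ => by have := h t; omega)
    omega
  refine ⟨t, ?_⟩
  have h2 : ∑ s ∈ univ.erase t, p s + p t = 1 := by
    rw [Finset.sum_erase_add _ _ (mem_univ t)]; exact h1'
  have h3 : 0 ≤ ∑ s ∈ univ.erase t, p s := Finset.sum_nonneg (fun s _ => h0' s)
  have h4 : ∑ s ∈ univ.erase t, p s = 0 := by omega
  have h5 := (Finset.sum_eq_zero_iff_of_nonneg (fun s _ => h0' s)).1 h4
  funext s
  by_cases hs : s = t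
  · subst hs; simp; omega
  · rw [Pi.single_eq_of_ne hs]
    exact h5 s (Finset.mem_erase.2 ⟨hs, mem_univ s⟩)

lemma toReal_single {m : ℕ} (t : Fin m) : toReal (Pi.single t 1) = Pi.single t 1 := by
  funext s
  by_cases h : s = t
  · subst h; simp [toReal]
  · simp [toReal, h]

/-- The single polytope case, in the form of the problem. -/
theorem single (d : ℕ) (V : Finset (Fin d → ℤ)) (P : Set (Fin d → ℝ)) (hne : V.Nonempty)
    (hP : P = convexHull ℝ (toReal '' (V : Set (Fin d → ℤ))))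
    (hs : ∀ x ∈ Set.extremePoints ℝ P, ∃ w : Fin d → Fin d → ℤ,
      IsUnit (Matrix.det (Matrix.of w)) ∧ (∀ i, IsRoot (w i)) ∧ Generates P x w)
    (k : Type) [Field k]
    (φ : MvPolynomial {u : Fin d → ℤ // toReal u ∈ P} k →ₐ[k] AddMonoidAlgebra k ((Fin d → ℤ) × ℤ))
    (hφ : ∀ u, φ (MvPolynomial.X u) = AddMonoidAlgebra.single (u.1, (1 : ℤ)) (1 : k)) :
    RingHom.ker φ = Ideal.span {f | f ∈ RingHom.ker φ ∧ f.IsHomogeneous 2} := by
  obtain ⟨z, hz⟩ := exists_sys (m := 1) (fun _ => V) (fun _ => P) (fun _ => hne) (fun _ => hP)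
    (fun _ _ x hx => by
      obtain ⟨w, h1, h2, h3⟩ := hs x hx
      exact ⟨x, hx, w, h1, h2, h3, h3⟩)
  apply Bog.ker_eq_span (v := fun u => (u.1, (1 : ℤ))) φ hφ
  intro s t hst
  have hfst : ∀ s : Multiset {u : Fin d → ℤ // toReal u ∈ P},
      ((s.map (fun u => ((u.1, (1 : ℤ)) : (Fin d → ℤ) × ℤ))).sum).1 = (s.map (fun u => u.1)).sum := by
    intro s
    induction s using Multiset.induction_on with
    | empty => rfl
    | cons a s ih =>
      rw [Multiset.map_cons, Multiset.sum_cons, Multiset.map_cons, Multiset.sum_cons, ← ih]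
      rfl
  have hsnd : ∀ s : Multiset {u : Fin d → ℤ // toReal u ∈ P},
      ((s.map (fun u => ((u.1, (1 : ℤ)) : (Fin d → ℤ) × ℤ))).sum).2 = (Multiset.card s : ℤ) := by
    intro s
    induction s using Multiset.induction_on with
    | empty => rfl
    | cons a s ih =>
      rw [Multiset.map_cons, Multiset.sum_cons, Multiset.card_cons, Prod.snd_add, ih]
      push_cast
      ring
  refine GP.mconn _ (fun _ => (0 : Fin 1)) (fun u => u.1) hz (fun u => u.2)
    (fun _ x h => ⟨x, h⟩) (fun _ _ => rfl) ?_ s t ?_ ?_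
  · intro _ _ x x' y y' h1 h2 h3 h4 hxy
    exact Prod.ext hxy rfl
  · rw [Multiset.map_const', Multiset.map_const']
    congr 1
    have := congrArg Prod.snd hst
    rw [hsnd, hsnd] at this
    exact_mod_cast this
  · rw [← hfst, ← hfst, hst]

/-- the Cayley polytope case -/
theorem cayley (m d : ℕ) (V : Fin m → Finset (Fin d → ℤ)) (P : Fin m → Set (Fin d → ℝ))
    (hne : ∀ t, (V t).Nonempty)
    (hP : ∀ t, P t = convexHull ℝ (toReal '' (V t : Set (Fin d → ℤ))))
    (hs : ∀ s t, ∀ x ∈ Set.extremePoints ℝ (P s), ∃ x' ∈ Set.extremePoints ℝ (P t),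
      ∃ w : Fin d → Fin d → ℤ, IsUnit (Matrix.det (Matrix.of w)) ∧ (∀ i, IsRoot (w i)) ∧
        Generates (P s) x w ∧ Generates (P t) x' w)
    (k : Type) [Field k]
    (φ : MvPolynomial {u : (Fin m → ℤ) × (Fin d → ℤ) // (toReal u.1, toReal u.2) ∈ Cayley P} k →ₐ[k]
          AddMonoidAlgebra k (((Fin m → ℤ) × (Fin d → ℤ)) × ℤ))
    (hφ : ∀ u, φ (MvPolynomial.X u) = AddMonoidAlgebra.single (u.1, (1 : ℤ)) (1 : k)) :
    RingHom.ker φ = Ideal.span {f | f ∈ RingHom.ker φ ∧ f.IsHomogeneous 2} := by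
  classical
  obtain ⟨z, hz⟩ := exists_sys V P hne hP hs
  have hconv := hz.conv
  have hmem : ∀ (t : Fin m) (x : Fin d → ℤ),
      ((toReal (Pi.single t 1), toReal x) : (Fin m → ℝ) × (Fin d → ℝ)) ∈ Cayley P ↔
        GP.rl x ∈ P t := by
    intro t x
    rw [toReal_single]
    exact cayley_iff hconv t _
  have hty : ∀ u : {u : (Fin m → ℤ) × (Fin d → ℤ) // (toReal u.1, toReal u.2) ∈ Cayley P},
      ∃ t, u.1.1 = Pi.single t 1 := fun u =>
    exists_single (cayley_fst u.2).1 (cayley_fst u.2).2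
  choose ty hty using hty
  have hval : ∀ u : {u : (Fin m → ℤ) × (Fin d → ℤ) // (toReal u.1, toReal u.2) ∈ Cayley P},
      u.1 = (Pi.single (ty u) 1, u.1.2) := fun u => by rw [← hty u]
  apply Bog.ker_eq_span (v := fun u => (u.1, (1 : ℤ))) φ hφ
  intro s t hst
  refine GP.mconn _ ty (fun u => u.1.2) hz ?_ (fun c x h => ⟨(Pi.single c 1, x), (hmem c x).2 h⟩)
    ?_ ?_ s t ?_ ?_
  · intro u
    rw [← hmem, ← hty u]
    exact u.2
  · intro u h
    apply Subtype.ext
    exact (hval u).symm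
  · intro c d x x' y y' h1 h2 h3 h4 hxy
    ext
    · rfl
    · exact congrFun hxy _
    · rfl
  · -- types
    have h1 := congrArg (fun z => z.1.1) hst
    have h2 : ∀ s : Multiset {u : (Fin m → ℤ) × (Fin d → ℤ) //
          (toReal u.1, toReal u.2) ∈ Cayley P},
        ∀ c, ((s.map (fun u => ((u.1, (1 : ℤ)) : ((Fin m → ℤ) × (Fin d → ℤ)) × ℤ))).sum).1.1 c =
          ((s.map ty).count c : ℤ) := by
      intro s c
      induction s using Multiset.induction_on with
      | empty => rfl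
      | cons a s ih =>
        rw [Multiset.map_cons, Multiset.sum_cons, Multiset.map_cons, Multiset.count_cons]
        have : (((a.1, (1 : ℤ)) : ((Fin m → ℤ) × (Fin d → ℤ)) × ℤ) +
          (s.map (fun u => ((u.1, (1 : ℤ)) : ((Fin m → ℤ) × (Fin d → ℤ)) × ℤ))).sum).1.1 c =
          a.1.1 c +
          ((s.map (fun u => ((u.1, (1 : ℤ)) : ((Fin m → ℤ) × (Fin d → ℤ)) × ℤ))).sum).1.1 c := rfl
        rw [this, ih, hty a]
        by_cases hc : c = ty a
        · subst hc; simp; ring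
        · rw [Pi.single_eq_of_ne hc, if_neg hc]; simp
    ext c
    have h3 := congrFun h1 c
    rw [h2 s c, h2 t c] at h3
    exact_mod_cast h3
  · have h2 : ∀ s : Multiset {u : (Fin m → ℤ) × (Fin d → ℤ) //
          (toReal u.1, toReal u.2) ∈ Cayley P},
        ((s.map (fun u => ((u.1, (1 : ℤ)) : ((Fin m → ℤ) × (Fin d → ℤ)) × ℤ))).sum).1.2 =
          (s.map (fun u => u.1.2)).sum := by
      intro s
      induction s using Multiset.induction_on with
      | empty => rfl
      | cons a s ih =>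
        rw [Multiset.map_cons, Multiset.sum_cons, Multiset.map_cons, Multiset.sum_cons, ← ih]
        rfl
    rw [← h2, ← h2, hst]

end Pool.Agent.Lib_helper99.GP.Final
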