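import Pool.Agent.Lib_helper99.GP.Fence

set_option autoImplicit false
open Finset

namespace Pool.Agent.Lib_helper99.GP

variable {n k : ℕ} {z : Fin k → Finset (Fin n) → ℤ}

lemma dd_ex_right {x w : Fin n → ℤ} {a b : Fin n}
    (h : ¬ (ex w a b a < x a ∧ x b < ex w a b b)) : dd x (ex w a b) ≤ dd x w := by
  by_cases hab : a = b
  · subst hab
    have : ex w a a = w := by unfold ex; simp
    rw [this]
  · have e1 : ex w a b a = w a - 1 := by unfold ex; simp [hab]; ring
    have e2 : ex w a b b = w b + 1 := by unfold ex; simp [Ne.symm hab]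
    have e3 : ∀ e, e ≠ a → e ≠ b → ex w a b e = w e := by
      intro e h1 h2; unfold ex; simp [h1, h2]
    rw [e1, e2] at h
    unfold dd
    have h1 : ∑ e, ((x e - ex w a b e).toNat + if e = b then (x b - w b).toNat - (x b - w b - 1).toNat else 0)
        ≤ ∑ e, ((x e - w e).toNat + if e = a then (x a - w a + 1).toNat - (x a - w a).toNat else 0) := by
      apply Finset.sum_le_sum
      intro e _
      by_cases h1 : e = a
      · subst h1
        rw [if_neg hab, if_pos rfl, e1]
        omega
      · by_cases h2 : e = b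
        · subst h2
          rw [if_pos rfl, if_neg h1, e2]
          omega
        · rw [if_neg h1, if_neg h2, e3 e h1 h2]
    rw [Finset.sum_add_distrib, Finset.sum_add_distrib] at h1
    simp only [Finset.sum_ite_eq', Finset.mem_univ, if_true] at h1
    omega

lemma DD_right {U W : Fin k → Fin n → ℤ} {A : Arc n k} (h : ¬ Tw U (app [A] W) A) :
    DD U (app [A] W) ≤ DD U W := by
  unfold DD
  apply Finset.sum_le_sum
  intro l _
  by_cases hl : l = A.c
  · subst hl
    unfold Tw at h
    rw [app_single_self] at h ⊢
    exact dd_ex_right h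
  · rw [app_single_ne A W hl]

/-- without cancellation all arcs point towards the target -/
lemma tw_of_DD {U : Fin k → Fin n → ℤ} {L : List (Arc n k)} (h : L.length ≤ DD U (app L U)) :
    ∀ A ∈ L, Tw U (app L U) A := by
  intro A hA
  by_contra hcon
  obtain ⟨L1, L2, rfl⟩ := List.append_of_mem hA
  have e : app (L1 ++ A :: L2) U = app [A] (app (L1 ++ L2) U) := by
    rw [← app_append]
    apply app_congr_sum
    simp only [List.map_append, List.map_cons, List.map_nil, List.sum_append, List.sum_cons,
      List.sum_nil]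
    abel
  rw [e] at hcon h
  have h1 := DD_right hcon
  have h2 := DD_app_le (L1 ++ L2) U
  simp only [List.length_append, List.length_cons] at h h2
  omega

/-- a closed good walk is chordless or there is a shorter one -/
lemma nc_or_short (z : Fin k → Finset (Fin n) → ℤ) {U W : Fin k → Fin n → ℤ} {M : List (Arc n k)}
    {y : Fin n} (hwM : Walk y M y) (hgM : ∀ A ∈ M, Gd z U W A) :
    M.Pairwise (NC z U) ∨ ∃ (M' : List (Arc n k)) (y : Fin n), Walk y M' y ∧ M' ≠ [] ∧
      (∀ A ∈ M', Gd z U W A) ∧ M'.length < M.length := by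
  by_contra hcon
  rw [not_or] at hcon
  obtain ⟨hcon, hmin'⟩ := hcon
  have hmin : ∀ (M' : List (Arc n k)) (y : Fin n), Walk y M' y → M' ≠ [] →
      (∀ A ∈ M', Gd z U W A) → M.length ≤ M'.length := by
    intro M' y h1 h2 h3
    by_contra h4
    exact hmin' ⟨M', y, h1, h2, h3, by omega⟩
  apply hcon
  apply pairwise_of_split
  intro L1 A L2 A' L3 he hc
  rw [he, walk_append_iff] at hwM
  obtain ⟨a', hw1, hwM⟩ := hwM
  rw [walk_cons_iff, walk_append_iff] at hwM
  obtain ⟨haa, c', hw2, hwM⟩ := hwM
  rw [walk_cons_iff] at hwM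
  obtain ⟨hcc, hw3⟩ := hwM
  rw [haa] at hw1
  rw [hcc] at hw2
  have hgA : Gd z U W A := hgM A (by rw [he]; simp)
  have hgA' : Gd z U W A' := hgM A' (by rw [he]; simp)
  constructor
  · intro hch
    have h1 := hmin (L1 ++ ⟨A.c, A.s, A'.t⟩ :: L3) y
      (walk_append_iff.2 ⟨A.s, hw1, Walk.cons (A := ⟨A.c, A.s, A'.t⟩) hw3⟩) (by simp) (by
        intro X hX
        rw [List.mem_append, List.mem_cons] at hX
        rcases hX with h | rfl | h
        · exact hgM X (by rw [he]; simp [h])
        · refine ⟨⟨hgA.1.1, ?_⟩, hch⟩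
          have := hgA'.1.2
          rw [← hc] at this
          exact this
        · exact hgM X (by rw [he]; simp [h]))
    rw [he] at h1
    simp only [List.length_append, List.length_cons] at h1
    omega
  · intro hch
    have h1 := hmin (⟨A.c, A'.s, A.t⟩ :: L2) A'.s
      (Walk.cons (A := ⟨A.c, A'.s, A.t⟩) hw2) (by simp) (by
        intro X hX
        rw [List.mem_cons] at hX
        rcases hX with rfl | h
        · refine ⟨⟨?_, hgA.1.2⟩, hch⟩
          have := hgA'.1.1
          rw [← hc] at this
          exact this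
        · exact hgM X (by rw [he]; simp [h]))
    rw [he] at h1
    simp only [List.length_append, List.length_cons] at h1
    omega

lemma val_of_nc (hz : ∀ l, Sup (z l)) {U : Fin k → Fin n → ℤ} (hU : Val z U)
    {M : List (Arc n k)} (had : ∀ A ∈ M, Ad z U A.c A.s A.t) (hnc : M.Pairwise (NC z U)) :
    Val z (app M U) :=
  val_of_ok hz M U hU ⟨had, hnc.imp (fun h hc => (h hc).1)⟩

/-- the induction hypothesis on the distance -/
def IHd (z : Fin k → Finset (Fin n) → ℤ) (r : ℕ) : Prop :=
  ∀ U W, Val z U → Val z W → ∑ l, U l = ∑ l, W l → DD U W < r → Conn z U W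

lemma conn_or_nc (hz : ∀ l, Sup (z l)) {r : ℕ} (hS : IHd z r) {U : Fin k → Fin n → ℤ}
    (hU : Val z U) {L : List (Arc n k)} {v : Fin n} (hw : Walk v L v)
    (had : ∀ A ∈ L, Ad z U A.c A.s A.t) (hlen : L.length ≤ r) (hW : Val z (app L U)) :
    Conn z U (app L U) ∨ L.Pairwise (NC z U) := by
  have hsum := (sum_app L hw U).symm
  by_cases hD : DD U (app L U) < r
  · left; exact hS _ _ hU hW hsum hD
  have hD' := DD_app_le L U
  have hgd : ∀ A ∈ L, Gd z U (app L U) A := fun A hA => ⟨tw_of_DD (by omega) A hA, had A hA⟩
  rcases nc_or_short z hw hgd with h | ⟨M', y', h1, h2, h3, h4⟩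
  · right; exact h
  · left
    obtain ⟨M, y, g1, g2, g3, g4, g5, g6⟩ := exists_min z h1 h2 h3
    have hV : Val z (app M U) := val_of_nc hz hU (fun A hA => (g3 A hA).2) g5
    have g7 : 0 < M.length := List.length_pos_iff.2 g2
    have c1 : Conn z U (app M U) := by
      apply hS _ _ hU hV (sum_app M g1 U).symm
      have := DD_app_le M U
      omega
    have c2 : Conn z (app M U) (app L U) := by
      apply hS _ _ hV hW
      · rw [sum_app M g1, hsum]
      · omega
    exact c1.trans c2

lemma Le_of_base {f : Finset (Fin n) → ℤ} {x : Fin n → ℤ} (hx : Base f x) {a b : Fin n}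
    (h : Base f (ex x a b)) : Le f x a b := (ex_mem_iff hx a b).1 h

lemma ex_ex (x : Fin n → ℤ) (a b c : Fin n) : ex (ex x b c) a b = ex x a c := by
  unfold ex; abel

lemma ex_ex' (x : Fin n → ℤ) (a b c : Fin n) : ex (ex x a b) b c = ex x a c := by
  unfold ex; abel

/-- the key induction on the length of a fence -/
theorem fence_conn (hz : ∀ l, Sup (z l)) (hm : ∀ i j, SameMod (z i) (z j))
    (hT : ∀ l x, Base (z l) x → Tre (z l) x) {r : ℕ} (hS : IHd z r) :
    ∀ ρ, ∀ (U : Fin k → Fin n → ℤ) (i j : Fin k) (a b c : Fin n) (L : List (Arc n k)),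
      Val z U → i ≠ j → Ad z U j c a → Ad z U i a b → (∀ A ∈ L, Ad z U A.c A.s A.t) →
      Walk b L c → L.length + 2 ≤ r → Val z (app (⟨j, c, a⟩ :: ⟨i, a, b⟩ :: L) U) →
      Fn (Le (z i) (U i)) ρ true b c → Conn z U (app (⟨j, c, a⟩ :: ⟨i, a, b⟩ :: L) U) := by
  classical
  intro ρ
  induction ρ using Nat.strong_induction_on with
  | _ ρ ih =>
  intro U i j a b c L hU hij hca hab hadL hwL hlen hW hF
  have hwalk : ∀ a', Walk c (⟨j, c, a'⟩ :: ⟨i, a', b⟩ :: L : List (Arc n k)) c := fun a' =>
    Walk.cons (A := ⟨j, c, a'⟩) (Walk.cons (A := ⟨i, a', b⟩) hwL)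
  have hadf : ∀ a', Ad z U j c a' → Ad z U i a' b →
      ∀ A ∈ (⟨j, c, a'⟩ :: ⟨i, a', b⟩ :: L : List (Arc n k)), Ad z U A.c A.s A.t := by
    intro a' h1 h2 A hA
    rw [List.mem_cons, List.mem_cons] at hA
    rcases hA with rfl | rfl | h
    · exact h1
    · exact h2
    · exact hadL A h
  by_cases hshort : ∃ ρ' < ρ, Fn (Le (z i) (U i)) ρ' true b c
  · obtain ⟨ρ', h1, h2⟩ := hshort
    exact ih ρ' h1 U i j a b c L hU hij hca hab hadL hwL hlen hW h2
  have hmin : ∀ ρ' < ρ, ¬ Fn (Le (z i) (U i)) ρ' true b c := fun ρ' h1 h2 => hshort ⟨ρ', h1, h2⟩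
  rcases conn_or_nc hz hS hU (hwalk a) (hadf a hca hab) (by simp only [List.length_cons]; omega) hW with hc | hnc
  · exact hc
  rw [List.pairwise_cons, List.pairwise_cons] at hnc
  obtain ⟨hnc1, hnc2, hnc3⟩ := hnc
  -- the case of a chord `c → b`
  by_cases hcb : Ad z U i c b
  · have hX : Val z (app (L ++ [⟨i, c, b⟩]) U) := by
      apply val_of_ok hz _ _ hU
      refine ⟨?_, ?_⟩
      · intro A hA
        rw [List.mem_append, List.mem_singleton] at hA
        rcases hA with h | rfl
        · exact hadL A h
        · exact hcb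
      · rw [List.pairwise_append]
        refine ⟨hnc3.imp (fun h hc => (h hc).1), by simp, ?_⟩
        intro A hA A' hA' hc
        rw [List.mem_singleton] at hA'
        subst hA'
        have hc : A.c = i := hc
        have := (hnc2 A hA hc.symm).2
        show ¬ Ad z U A.c A.s b
        rw [hc]
        exact this
    have hwX : Walk b (L ++ [⟨i, c, b⟩] : List (Arc n k)) b :=
      walk_append_iff.2 ⟨c, hwL, Walk.cons (A := ⟨i, c, b⟩) (Walk.nil b)⟩
    have c1 : Conn z U (app (L ++ [⟨i, c, b⟩]) U) := by
      apply hS _ _ hU hX (sum_app _ hwX U).symm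
      have := DD_app_le (L ++ [⟨i, c, b⟩]) U
      simp only [List.length_append, List.length_cons, List.length_nil] at this
      omega
    have he : app (⟨j, c, a⟩ :: ⟨i, a, b⟩ :: L) U =
        app [⟨j, c, a⟩, ⟨i, a, c⟩] (app (L ++ [⟨i, c, b⟩]) U) := by
      rw [← app_append]
      apply app_congr_sum
      simp only [List.map_append, List.map_cons, List.map_nil, List.sum_append, List.sum_cons,
        List.sum_nil]
      rw [← dl_split i a c b]
      abel
    refine c1.tail ?_
    exact step_two hij.symm hX hW he
  -- the case `a → f₂`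
  have key : ∀ (ρ' : ℕ) (f₂ a' : Fin n), ρ = ρ' + 2 → Fn (Le (z i) (U i)) ρ' true f₂ c →
      Ad z U j c a' → Ad z U i a' b → Ad z U i a' f₂ →
      Val z (app (⟨j, c, a'⟩ :: ⟨i, a', b⟩ :: L) U) →
      Conn z U (app (⟨j, c, a'⟩ :: ⟨i, a', b⟩ :: L) U) := by
    intro ρ' f₂ a' hρ hF' hca' hab' haf hW'
    rcases conn_or_nc hz hS hU (hwalk a') (hadf a' hca' hab') (by simp only [List.length_cons]; omega) hW' with hc | hnc
    · exact hc
    rw [List.pairwise_cons, List.pairwise_cons] at hnc
    obtain ⟨hn1, hn2, hn3⟩ := hnc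
    cases ρ' with
    | zero =>
      have hF' : f₂ = c := hF'
      rw [hF'] at haf
      have hU' : Val z (app [⟨j, c, a'⟩, ⟨i, a', c⟩] U) := by
        apply val_of_ok hz _ _ hU
        refine ⟨?_, ?_⟩
        · intro A hA
          simp only [List.mem_cons, List.not_mem_nil, or_false] at hA
          rcases hA with rfl | rfl
          · exact hca'
          · exact haf
        · simp only [List.pairwise_cons, List.mem_cons, List.not_mem_nil, or_false, forall_eq,
            List.Pairwise.nil, and_true]
          exact ⟨fun h => absurd h.symm hij, fun _ h => h.elim⟩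
      have c1 : Step z U (app [⟨j, c, a'⟩, ⟨i, a', c⟩] U) := step_two hij.symm hU hU' rfl
      have he : app (⟨j, c, a'⟩ :: ⟨i, a', b⟩ :: L) U =
          app (⟨i, c, b⟩ :: L) (app [⟨j, c, a'⟩, ⟨i, a', c⟩] U) := by
        rw [← app_append]
        apply app_congr_sum
        simp only [List.map_append, List.map_cons, List.map_nil, List.sum_append, List.sum_cons,
          List.sum_nil]
        rw [← dl_split i a' c b]
        abel
      have hw' : Walk c (⟨i, c, b⟩ :: L : List (Arc n k)) c := Walk.cons (A := ⟨i, c, b⟩) hwL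
      rw [he] at hW' ⊢
      refine Relation.ReflTransGen.head c1 ?_
      apply hS _ _ hU' hW' (sum_app _ hw' _).symm
      have := DD_app_le (⟨i, c, b⟩ :: L) (app [⟨j, c, a'⟩, ⟨i, a', c⟩] U)
      simp only [List.length_cons] at this
      omega
    | succ q =>
      obtain ⟨f₃, hf₃, hF₃⟩ := hF'
      -- a minimal common upper bound
      let S : Finset (Fin n) := univ.filter (fun h => Ad z U i a' h ∧ Ad z U i f₃ h)
      have hS' : ∀ h, h ∈ S ↔ Ad z U i a' h ∧ Ad z U i f₃ h := by intro h; simp [S]
      let m : Fin n → ℕ := fun h => (univ.filter (fun g => Ad z U i h g)).card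
      obtain ⟨v, hv, hmax⟩ := S.exists_max_image m ⟨f₂, (hS' _).2 ⟨haf, hf₃⟩⟩
      obtain ⟨hav, hfv⟩ := (hS' v).1 hv
      have hnb : ¬ Le (z i) (U i) f₃ b := fun h => hmin (q + 1) (by omega) ⟨f₃, h, hF₃⟩
      have hva : ¬ Le (z i) (U i) v a' := fun h => hnb (hfv.trans (h.trans hab'))
      have hvf : ¬ Le (z i) (U i) v f₃ := by
        intro h
        have haf₃ : Le (z i) (U i) a' f₃ := hav.trans h
        cases q with
        | zero =>
          have hF₃ : f₃ = c := hF₃
          exact hmin 2 (by omega) ⟨a', hab', f₃, haf₃, hF₃⟩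
        | succ q =>
          obtain ⟨g, hg, hF₄⟩ := hF₃
          exact hmin (q + 2) (by omega) ⟨a', hab', g, haf₃.trans hg, hF₄⟩
      rcases (hT i (U i) (hU i)).up v a' f₃ hav hfv hva hvf with
        ⟨g, hg1, hg2, hg3, hg4⟩ | ⟨A₁, A₂, ha1, ha2, hf1, hf2, hA1, hA2, hu, hinter⟩
      · exfalso
        have h1 := hmax g ((hS' g).2 ⟨hg3, hg4⟩)
        have h2 : m v < m g := by
          apply Finset.card_lt_card
          constructor
          · intro h hh
            simp only [mem_filter, mem_univ, true_and] at hh ⊢
            exact hg1.trans hh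
          · intro hsub
            have : g ∈ univ.filter (fun g => Ad z U i v g) :=
              hsub (by simp only [mem_filter, mem_univ, true_and]; exact Le.refl g)
            simp only [mem_filter, mem_univ, true_and] at this
            exact hg2 this
        omega
      · have hcA : c ∉ A₁ := fence_A hab' hav hA1 hA2 hu hinter q f₃ hf2 hF₃
          (fun k' hk' => hmin k' (by omega))
        have hcA2 : c ∈ A₂ := by
          have : c ∈ A₁ ∪ A₂ := by rw [hu]; exact mem_univ c
          rcases mem_union.1 this with h | h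
          · exact absurd h hcA
          · exact h
        have hmod : z i A₁ + z i A₂ = z i (A₁ ∪ A₂) + z i (A₁ ∩ A₂) := by
          have t := tight_both (hz i) (hU i) hA1 hA2
          have s := sum_mod (U i) A₁ A₂
          have t1 := t.1
          have t2 := t.2
          unfold Tight at hA1 hA2 t1 t2
          linarith
        have hmod' := hm i j _ _ hmod
        rw [hu] at hmod'
        obtain ⟨t, hta, ht⟩ := sep_up (hz j) (hU j) hu hmod' hcA2 ha2 hca'
        have hvt : Le (z i) (U i) v t := (hinter t).1 ht
        have hat : Le (z i) (U i) a' t := hav.trans hvt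
        have hft : Le (z i) (U i) f₃ t := hfv.trans hvt
        -- the new family
        set U' := app [⟨j, t, a'⟩, ⟨i, a', t⟩] U with hU'def
        have hU' : Val z U' := by
          apply val_of_ok hz _ _ hU
          refine ⟨?_, ?_⟩
          · intro A hA
            simp only [List.mem_cons, List.not_mem_nil, or_false] at hA
            rcases hA with rfl | rfl
            · exact hta
            · exact hat
          · simp only [List.pairwise_cons, List.mem_cons, List.not_mem_nil, or_false, forall_eq,
              List.Pairwise.nil, and_true]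
            exact ⟨fun h => absurd h.symm hij, fun _ h => h.elim⟩
        have c1 : Step z U U' := step_two hij.symm hU hU' rfl
        have hUj : U' j = ex (U j) t a' := by
          rw [hU'def, app_cons, app_single_ne _ _ (by exact hij.symm)]
          exact app_single_self ⟨j, t, a'⟩ U
        have hUi : U' i = ex (U i) a' t := by
          rw [hU'def, app_cons]
          have e1 : app [(⟨j, t, a'⟩ : Arc n k)] U i = U i := app_single_ne _ _ hij
          rw [← e1]
          exact app_single_self ⟨i, a', t⟩ _
        have hUl : ∀ l, l ≠ i → l ≠ j → U' l = U l := by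
          intro l h1 h2
          rw [hU'def, app_cons, app_single_ne _ _ (by exact h1), app_single_ne _ _ (by exact h2)]
        have he : app (⟨j, c, a'⟩ :: ⟨i, a', b⟩ :: L) U =
            app (⟨j, c, t⟩ :: ⟨i, t, b⟩ :: L) U' := by
          rw [hU'def, ← app_append]
          apply app_congr_sum
          simp only [List.map_append, List.map_cons, List.map_nil, List.sum_append, List.sum_cons,
            List.sum_nil]
          rw [← dl_split i a' t b, ← dl_split j c t a']
          abel
        rw [he] at hW' ⊢
        refine Relation.ReflTransGen.head c1 ?_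
        apply ih (q + 1) (by omega) U' i j t b c L hU' hij ?_ ?_ ?_ hwL hlen hW' ?_
        · apply Le_of_base (hU' j)
          rw [hUj, ex_ex]
          exact (ex_mem_iff (hU j) c a').2 hca'
        · apply Le_of_base (hU' i)
          rw [hUi, ex_ex']
          exact (ex_mem_iff (hU i) a' b).2 hab'
        · intro A hA
          have h1 := hadL A hA
          by_cases hi : A.c = i
          · have h2 := (hn2 A hA hi.symm).1
            unfold Ad at *
            rw [hi] at h1 ⊢
            rw [hUi]
            exact two_arc (hz i) (hU i) hat h1 h2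
          · by_cases hj : A.c = j
            · have h2 := (hn1 A (List.mem_cons_of_mem _ hA) hj.symm).2
              unfold Ad at *
              rw [hj] at h1 ⊢
              rw [hUj]
              exact two_arc' (hz j) (hU j) hta h1 h2
            · unfold Ad at *
              rw [hUl _ hi hj]
              exact h1
        · rw [hUi]
          refine ⟨f₃, new_arc (hz i) (hU i) hab' hft hat hnb, ?_⟩
          exact fence_persist (hz i) (hU i) hab' hat q f₃ hF₃ (fun k' hk' => hmin k' (by omega))
  -- choose the fence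
  match ρ, ih, hF, hmin, key with
  | 0, _, hF, _, _ =>
    exfalso
    have hF : b = c := hF
    apply hcb
    rw [hF]
    exact Le.refl c
  | 1, _, hF, _, _ =>
    exfalso
    obtain ⟨f, h1, h2⟩ := hF
    have h2 : f = c := h2
    rw [h2] at h1
    exact hcb h1
  | ρ' + 2, ih, hF, hmin, key =>
    obtain ⟨f₁, hf₁, f₂, hf₂, hF'⟩ := hF
    let S : Finset (Fin n) := univ.filter (fun h => Ad z U i h b ∧ Ad z U i h f₂)
    have hS' : ∀ h, h ∈ S ↔ Ad z U i h b ∧ Ad z U i h f₂ := by intro h; simp [S]
    let m : Fin n → ℕ := fun h => (univ.filter (fun g => Ad z U i g h)).card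
    obtain ⟨v, hv, hmax⟩ := S.exists_max_image m ⟨f₁, (hS' _).2 ⟨hf₁, hf₂⟩⟩
    obtain ⟨hvb, hvf⟩ := (hS' v).1 hv
    by_cases hav : Le (z i) (U i) a v
    · exact key ρ' f₂ a rfl hF' hca hab (hav.trans hvf) hW
    have hbv : ¬ Le (z i) (U i) b v := fun h => hav (hab.trans h)
    have hfv : ¬ Le (z i) (U i) f₂ v := by
      intro h
      have hfb : Le (z i) (U i) f₂ b := h.trans hvb
      cases ρ' with
      | zero =>
        have hF' : f₂ = c := hF'
        rw [hF'] at hfb
        exact hcb hfb
      | succ q =>
        obtain ⟨f₃, hf₃, hF₃⟩ := hF'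
        exact hmin (q + 1) (by omega) ⟨f₃, hf₃.trans hfb, hF₃⟩
    rcases (hT i (U i) (hU i)).down v b f₂ hvb hvf hbv hfv with
      ⟨g, hg1, hg2, hg3, hg4⟩ | ⟨M₁, M₂, hb1, hf2, hM1, hM2, hd, hcompl⟩
    · exfalso
      have h1 := hmax g ((hS' g).2 ⟨hg3, hg4⟩)
      have h2 : m v < m g := by
        apply Finset.card_lt_card
        constructor
        · intro h hh
          simp only [mem_filter, mem_univ, true_and] at hh ⊢
          exact hh.trans hg1
        · intro hsub
          have : g ∈ univ.filter (fun g => Ad z U i g v) :=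
            hsub (by simp only [mem_filter, mem_univ, true_and]; exact Le.refl g)
          simp only [mem_filter, mem_univ, true_and] at this
          exact hg2 this
      omega
    · have hcM : c ∈ M₂ := fence_M hvb hM1 hM2 hd hcompl ρ' f₂ hf2 hF'
        (fun k' hk' => hmin k' (by omega))
      have haM : a ∈ M₁ := by
        have h1 : a ∈ M₁ ∪ M₂ := by
          by_contra h
          exact hav ((hcompl a).1 h)
        rcases mem_union.1 h1 with h | h
        · exact h
        · exact absurd (hab _ hM2 h) (Finset.disjoint_left.1 hd hb1)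
      have hi0 : M₁ ∩ M₂ = ∅ := Finset.disjoint_iff_inter_eq_empty.1 hd
      have hmod : z i M₁ + z i M₂ = z i (M₁ ∪ M₂) + z i (M₁ ∩ M₂) := by
        have t := tight_both (hz i) (hU i) hM1 hM2
        have s := sum_mod (U i) M₁ M₂
        have t1 := t.1
        have t2 := t.2
        unfold Tight at hM1 hM2 t1 t2
        linarith
      have hmod' := hm i j _ _ hmod
      rw [hi0, (hz j).empty, add_zero] at hmod'
      obtain ⟨t, hct, ht⟩ := sep_down (hz j) (hU j) hd hmod' hcM haM hca
      have htv : Le (z i) (U i) t v := (hcompl t).1 ht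
      have htb : Le (z i) (U i) t b := htv.trans hvb
      have htf : Le (z i) (U i) t f₂ := htv.trans hvf
      -- the new target
      have hW0 : Val z (app ((⟨j, c, t⟩ :: L) ++ [⟨i, t, b⟩]) U) := by
        apply val_of_ok hz _ _ hU
        refine ⟨?_, ?_⟩
        · intro A hA
          rw [List.mem_append, List.mem_cons, List.mem_singleton] at hA
          rcases hA with (rfl | h) | rfl
          · exact hct
          · exact hadL A h
          · exact htb
        · rw [List.pairwise_append, List.pairwise_cons]
          refine ⟨⟨?_, hnc3.imp (fun h hc => (h hc).1)⟩, by simp, ?_⟩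
          · intro A hA hc
            exact (hnc1 A (List.mem_cons_of_mem _ hA) hc).1
          · intro A hA A' hA' hc
            rw [List.mem_singleton] at hA'
            subst hA'
            rw [List.mem_cons] at hA
            rcases hA with rfl | hA
            · exact absurd hc.symm hij
            · have hc : A.c = i := hc
              have := (hnc2 A hA hc.symm).2
              show ¬ Ad z U A.c A.s b
              rw [hc]
              exact this
      have he0 : app ((⟨j, c, t⟩ :: L) ++ [⟨i, t, b⟩]) U = app (⟨j, c, t⟩ :: ⟨i, t, b⟩ :: L) U := by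
        apply app_congr_sum
        simp only [List.map_append, List.map_cons, List.map_nil, List.sum_append, List.sum_cons,
          List.sum_nil]
        abel
      rw [he0] at hW0
      have c1 := key ρ' f₂ t rfl hF' hct htb htf hW0
      have he : app (⟨j, c, a⟩ :: ⟨i, a, b⟩ :: L) U =
          app [⟨j, t, a⟩, ⟨i, a, t⟩] (app (⟨j, c, t⟩ :: ⟨i, t, b⟩ :: L) U) := by
        rw [← app_append]
        apply app_congr_sum
        simp only [List.map_append, List.map_cons, List.map_nil, List.sum_append, List.sum_cons,
          List.sum_nil]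
        rw [← dl_split i a t b, ← dl_split j c t a]
        abel
      exact c1.tail (step_two hij.symm hW0 hW he)

/-- **Main connectivity theorem.** -/
theorem conn_of_sum (hz : ∀ l, Sup (z l)) (hm : ∀ i j, SameMod (z i) (z j))
    (hT : ∀ l x, Base (z l) x → Tre (z l) x) : ∀ (r : ℕ), IHd z r := by
  intro r
  induction r using Nat.strong_induction_on with
  | _ r ih =>
  intro U W hU hW hs hD
  by_cases hUW : U = W
  · rw [hUW]; exact Relation.ReflTransGen.refl
  obtain ⟨r0, L0, v0, hr0, hlen0, hw0, hgd0⟩ := exists_closed hz hU hW hs hUW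
  obtain ⟨M, y, g1, g2, g3, g4, g5, g6⟩ := exists_min z hw0 (List.length_pos_iff.1 (by omega)) hgd0
  have hV : Val z (app M U) := val_of_nc hz hU (fun A hA => (g3 A hA).2) g5
  have g7 : 0 < M.length := List.length_pos_iff.2 g2
  have hS : IHd z (DD U W) := ih _ hD
  have hsum : ∑ l, app M U l = ∑ l, W l := by rw [sum_app M g1, hs]
  by_cases hlt : M.length < DD U W
  · have c1 : Conn z U (app M U) := by
      apply hS _ _ hU hV (sum_app M g1 U).symm
      have := DD_app_le M U
      omega
    have c2 : Conn z (app M U) W := by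
      apply hS _ _ hV hW hsum
      omega
    exact c1.trans c2
  have hWM : app M U = W := eq_of_DD_zero hV hW (by omega)
  match M, g1, g2, g3, g5, g6, hV, g7, hlt, hWM with
  | [A], g1, _, g3, _, _, _, _, _, _ =>
    exfalso
    rw [walk_cons_iff, walk_nil_iff] at g1
    have h1 := (g3 A (by simp)).1
    have h2 : A.t = A.s := g1.2.trans g1.1
    unfold Tw at h1
    rw [h2] at h1
    omega
  | A₀ :: A₁ :: L, g1, _, g3, g5, g6, hV, _, hlt, hWM =>
    rw [walk_cons_iff, walk_cons_iff] at g1
    obtain ⟨hy, h01, hw⟩ := g1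
    rw [hy] at hw
    obtain ⟨j, c, a⟩ := A₀
    obtain ⟨i, a', b⟩ := A₁
    have h01 : a = a' := h01
    subst h01
    have hw : Walk b L c := hw
    rw [List.pairwise_cons] at g5
    have had0 : Ad z U j c a := (g3 ⟨j, c, a⟩ (by simp)).2
    have had1 : Ad z U i a b := (g3 ⟨i, a, b⟩ (by simp)).2
    have hij : i ≠ j := by
      rintro rfl
      have := g5.1 ⟨i, a, b⟩ (by simp) rfl
      exact this.1 (Le.trans had0 had1)
    obtain ⟨ρ, hρ⟩ := exists_fence (hz i) (hz j) (hm i j) (hU i) (hU j) had1 had0
    rw [← hWM]
    apply fence_conn hz hm hT hS ρ U i j a b c L hU hij had0 had1 _ hw _ hV hρ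
    · intro A hA
      exact (g3 A (by simp [hA])).2
    · simp only [List.length_cons] at g6
      omega

end Pool.Agent.Lib_helper99.GP
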