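import Pool.Agent.Lib_helper99.GP.Poly
import Pool.Agent.Lib_helper99.GP.Main
import Pool.Agent.Lib_helper99.Bog.Alg

set_option autoImplicit false
open Finset

namespace Pool.Agent.Lib_helper99.GP

open Pool.Agent.Lib_helper99.Bog

lemma rel_fin {A : Type*} (r : A → A → Prop) {s t : Multiset A} (h : Multiset.Rel r s t) :
    ∃ (N : ℕ) (U W : Fin N → A), (univ : Finset (Fin N)).val.map U = s ∧
      (univ : Finset (Fin N)).val.map W = t ∧ ∀ i, r (U i) (W i) := by
  induction h with
  | zero => exact ⟨0, Fin.elim0, Fin.elim0, by simp, by simp, fun i => i.elim0⟩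
  | @cons a b as bs hab _ ih =>
    obtain ⟨N, U, W, rfl, rfl, h⟩ := ih
    refine ⟨N + 1, Fin.cons a U, Fin.cons b W, ?_, ?_, ?_⟩
    · rw [Fin.univ_val_map, Fin.univ_val_map, List.ofFn_cons]; rfl
    · rw [Fin.univ_val_map, Fin.univ_val_map, List.ofFn_cons]; rfl
    · intro i
      refine Fin.cases ?_ ?_ i
      · simpa using hab
      · intro j; simpa using h j

lemma univ_map_pair {N : ℕ} {B : Type*} (F : Fin N → B) {i j : Fin N} (hij : i ≠ j) :
    (univ : Finset (Fin N)).val.map F =
      F i ::ₘ F j ::ₘ (((univ : Finset (Fin N)).erase i).erase j).val.map F := by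
  have h1 : i ∈ (univ : Finset (Fin N)).val := Finset.mem_univ i
  have h2 : j ∈ ((univ : Finset (Fin N)).erase i).val := by
    rw [Finset.mem_val]
    exact Finset.mem_erase.2 ⟨hij.symm, mem_univ _⟩
  rw [Finset.erase_val, ← Multiset.map_cons, Multiset.cons_erase h2, Finset.erase_val,
    ← Multiset.map_cons, Multiset.cons_erase h1]

section
variable {d m : ℕ} {P : Fin m → Set (Fin d → ℝ)} {z : Fin m → Finset (Fin (d + 1)) → ℤ}

lemma cast_mem (h : Sys P z) {t : Fin m} {y : Fin (d + 1) → ℤ} (hy : Base (z t) y) :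
    rl (fun i => y i.castSucc) ∈ P t :=
  mem_of_base h (by rw [← eq_hat (by rw [hy.1, h.zuniv t])]; exact hy)

lemma hat_add (x y : Fin d → ℤ) : hat (x + y) = hat x + hat y := by
  funext q
  refine Fin.lastCases ?_ (fun q => ?_) q
  · rw [hat_last, Pi.add_apply, hat_last, hat_last]
    simp only [Pi.add_apply, Finset.sum_add_distrib]
    ring
  · rw [hat_castSucc, Pi.add_apply, Pi.add_apply, hat_castSucc, hat_castSucc]

lemma hat_sum {ι : Type*} (s : Finset ι) (x : ι → Fin d → ℤ) :
    hat (∑ i ∈ s, x i) = ∑ i ∈ s, hat (x i) := by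
  classical
  induction s using Finset.induction_on with
  | empty =>
    rw [Finset.sum_empty, Finset.sum_empty]
    funext q
    refine Fin.lastCases ?_ (fun q => ?_) q
    · rw [hat_last]; simp
    · rw [hat_castSucc]; rfl
  | insert a s ha ih => rw [Finset.sum_insert ha, Finset.sum_insert ha, hat_add, ih]

/-- abstract gluing: points with a type and a vector -/
theorem mconn {A : Type*} {G : Type*} [AddCommMonoid G] (v : A → G) (ty : A → Fin m)
    (pt : A → Fin d → ℤ) (h : Sys P z)
    (hpt : ∀ a, rl (pt a) ∈ P (ty a))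
    (mk : ∀ (c : Fin m) (x : Fin d → ℤ), rl x ∈ P c → A)
    (hmk : ∀ a h, mk (ty a) (pt a) h = a)
    (hv : ∀ (c d : Fin m) (x x' y y' : Fin _ → ℤ) (h1 : rl x ∈ P c) (h2 : rl y ∈ P d)
      (h3 : rl x' ∈ P c) (h4 : rl y' ∈ P d), x + y = x' + y' →
      v (mk c x h1) + v (mk d y h2) = v (mk c x' h3) + v (mk d y' h4))
    (s t : Multiset A) (hty : s.map ty = t.map ty)
    (hs : (s.map pt).sum = (t.map pt).sum) : Relation.ReflTransGen (MStep v) s t := by
  have hrel : Multiset.Rel (fun a b => ty a = ty b) s t := by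
    have h0 : Multiset.Rel (fun a b => a = b) (s.map ty) (t.map ty) := by
      rw [hty]
      exact Multiset.rel_eq_refl
    exact Multiset.rel_map.1 h0
  obtain ⟨N, U, W, rfl, rfl, hUW⟩ := rel_fin _ hrel
  set f : Fin N → Finset (Fin (d + 1)) → ℤ := fun i => z (ty (U i)) with hf
  have hU : Val f (fun i => hat (pt (U i))) := fun i => base_of_mem h (hpt (U i))
  have hW : Val f (fun i => hat (pt (W i))) := fun i => by
    show Base (z (ty (U i))) (hat (pt (W i)))
    rw [hUW i]; exact base_of_mem h (hpt (W i))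
  have hsum : ∑ i, hat (pt (U i)) = ∑ i, hat (pt (W i)) := by
    rw [Multiset.map_map, Multiset.map_map] at hs
    rw [← hat_sum, ← hat_sum]
    exact congrArg hat hs
  have hc := conn_of_sum (z := f) (fun l => h.sup _) (fun i j => h.same _ _)
    (fun l x hx => h.tre hx) _ _ _ hU hW hsum (Nat.lt_succ_self _)
  let M : ∀ V : Fin N → Fin (d + 1) → ℤ, Val f V → Multiset A := fun V hV =>
    (univ : Finset (Fin N)).val.map (fun i => mk (ty (U i)) (fun q => V i q.castSucc)
      (cast_mem h (hV i)))
  have hM : ∀ V, Conn f (fun i => hat (pt (U i))) V → ∀ hV : Val f V,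
      Relation.ReflTransGen (MStep v) (M _ hU) (M V hV) := by
    intro V hV
    induction hV with
    | refl => intro _; exact Relation.ReflTransGen.refl
    | tail _ hst ih =>
      rename_i V1 V2 _
      intro hV2
      obtain ⟨hV1, -, i, j, hij, ho, hs'⟩ := hst
      refine (ih hV1).tail ⟨mk (ty (U i)) (fun q => V1 i q.castSucc) (cast_mem h (hV1 i)),
        mk (ty (U j)) (fun q => V1 j q.castSucc) (cast_mem h (hV1 j)),
        mk (ty (U i)) (fun q => V2 i q.castSucc) (cast_mem h (hV2 i)),
        mk (ty (U j)) (fun q => V2 j q.castSucc) (cast_mem h (hV2 j)),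
        (((univ : Finset (Fin N)).erase i).erase j).val.map
          (fun i => mk (ty (U i)) (fun q => V1 i q.castSucc) (cast_mem h (hV1 i))), ?_, ?_, ?_⟩
      · exact univ_map_pair _ hij
      · have h1 : M V2 hV2 = _ := univ_map_pair (fun i => mk (ty (U i))
          (fun q => V2 i q.castSucc) (cast_mem h (hV2 i))) hij
        rw [h1]
        congr 2
        apply Multiset.map_congr rfl
        intro l hl
        rw [Finset.mem_val, Finset.mem_erase, Finset.mem_erase] at hl
        have := ho l hl.2.1 hl.1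
        congr 1
        rw [this]
      · apply hv
        funext q
        exact congrFun hs' q.castSucc
  have h1 := hM _ hc hW
  have hx : ∀ x : Fin d → ℤ, (fun q => hat x (Fin.castSucc q)) = x := fun x => by
    funext q; exact hat_castSucc x q
  have h2 : M _ hU = (univ : Finset (Fin N)).val.map U := by
    apply Multiset.map_congr rfl
    intro i _
    have h4 : ∀ (x : Fin d → ℤ) (_ : x = pt (U i)) (h : rl x ∈ P (ty (U i))),
        mk (ty (U i)) x h = U i := by
      rintro x rfl h
      exact hmk (U i) h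
    exact h4 _ (hx _) _
  have h3 : M _ hW = (univ : Finset (Fin N)).val.map W := by
    apply Multiset.map_congr rfl
    intro i _
    have h4 : ∀ (c : Fin m) (_ : c = ty (W i)) (x : Fin d → ℤ) (_ : x = pt (W i))
        (h : rl x ∈ P c), mk c x h = W i := by
      rintro c rfl x rfl h
      exact hmk (W i) h
    exact h4 _ (hUW i) _ (hx _) _
  rw [h2, h3] at h1
  exact h1

end

end Pool.Agent.Lib_helper99.GP
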