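import Pool.Agent.Lib_helper99.GP.Root

set_option autoImplicit false
open Finset

namespace Pool.Agent.Lib_helper99.GP

variable {d : ℕ}

lemma expand_ph (T : Bs (d + 1) (Fin d)) (F : Fin (d + 1) → ℝ) (x : Fin d → ℝ) :
    ph F x = ∑ i, (F (T.b i) - F (T.a i)) * ph (ind (T.R i)) x := by
  obtain ⟨c, hc⟩ := T.expand F
  have h1 : ph F x = ∑ q, (c * hat x q +
      ∑ i, (F (T.b i) - F (T.a i)) * (ind (T.R i) q * hat x q)) := by
    unfold ph
    apply Finset.sum_congr rfl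
    intro q _
    rw [hc q, add_mul, Finset.sum_mul]
    congr 1
    apply Finset.sum_congr rfl
    intro i _
    unfold ind
    ring
  rw [h1, Finset.sum_add_distrib, ← Finset.mul_sum, sum_hat, mul_zero, zero_add, Finset.sum_comm]
  apply Finset.sum_congr rfl
  intro i _
  rw [← Finset.mul_sum]
  rfl

/-- local structure of a polytope at a lattice point -/
structure Loc (P : Set (Fin d → ℝ)) (v : Fin d → ℤ) (T : Bs (d + 1) (Fin d)) : Prop where
  mem : rl v ∈ P
  out : ∀ p ∈ P, ∃ c : Fin d → ℝ, (∀ i, 0 ≤ c i) ∧ ∀ F, ph F p - ph F (rl v) =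
    ∑ i, c i * (F (T.b i) - F (T.a i))
  inn : ∀ i, ∃ t : ℝ, 0 ≤ t ∧ ∃ p ∈ P, ∀ F, F (T.b i) - F (T.a i) = t * (ph F p - ph F (rl v))

lemma Loc.min_iff {P : Set (Fin d → ℝ)} {v : Fin d → ℤ} {T : Bs (d + 1) (Fin d)}
    (h : Loc P v T) (F : Fin (d + 1) → ℝ) :
    (∀ p ∈ P, ph F (rl v) ≤ ph F p) ↔ ∀ i, F (T.a i) ≤ F (T.b i) := by
  constructor
  · intro h1 i
    obtain ⟨t, ht, p, hp, hF⟩ := h.inn i
    have h2 := hF F
    have h3 := mul_nonneg ht (sub_nonneg.2 (h1 p hp))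
    linarith
  · intro h1 p hp
    obtain ⟨c, hc, hF⟩ := h.out p hp
    have h2 := hF F
    have h3 : 0 ≤ ∑ i, c i * (F (T.b i) - F (T.a i)) :=
      Finset.sum_nonneg (fun i _ => mul_nonneg (hc i) (sub_nonneg.2 (h1 i)))
    linarith

/-- a system of polytopes with a common normal fan of root type -/
structure Sys {m : ℕ} (P : Fin m → Set (Fin d → ℝ)) (z : Fin m → Finset (Fin (d + 1)) → ℤ) :
    Prop where
  conv : ∀ t, Convex ℝ (P t)
  clos : ∀ t, IsClosed (P t)
  zle : ∀ t I, ∀ p ∈ P t, (z t I : ℝ) ≤ ph (ind I) p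
  zmin : ∀ t I, ∃ v : Fin d → ℤ, rl v ∈ P t ∧ ∑ q ∈ I, hat v q = z t I
  loc : ∀ s t F, ∃ v v' T, Loc (P s) v T ∧ Loc (P t) v' T ∧ ∀ p ∈ P s, ph F (rl v) ≤ ph F p

variable {m : ℕ} {P : Fin m → Set (Fin d → ℝ)} {z : Fin m → Finset (Fin (d + 1)) → ℤ}

lemma ind_le {I : Finset (Fin (d + 1))} {a b : Fin (d + 1)} :
    ind I a ≤ ind I b ↔ (a ∈ I → b ∈ I) := by
  unfold ind
  by_cases ha : a ∈ I <;> by_cases hb : b ∈ I <;> simp [ha, hb]

lemma Sys.tight_iff (h : Sys P z) {t : Fin m} {v : Fin d → ℤ} {T : Bs (d + 1) (Fin d)}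
    (hl : Loc (P t) v T) (I : Finset (Fin (d + 1))) :
    (∀ i, T.a i ∈ I → T.b i ∈ I) ↔ ∑ q ∈ I, hat v q = z t I := by
  constructor
  · intro h1
    have h2 := (hl.min_iff (ind I)).2 (fun i => ind_le.2 (h1 i))
    obtain ⟨v0, hv0, he⟩ := h.zmin t I
    have h3 := h2 _ hv0
    have h4 := h.zle t I _ hl.mem
    rw [ph_ind_rl, ph_ind_rl, he] at h3
    rw [ph_ind_rl] at h4
    have h5 : (∑ q ∈ I, hat v q) ≤ z t I := by exact_mod_cast h3
    have h6 : z t I ≤ ∑ q ∈ I, hat v q := by exact_mod_cast h4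
    exact le_antisymm h5 h6
  · intro h1
    have h2 : ∀ p ∈ P t, ph (ind I) (rl v) ≤ ph (ind I) p := by
      intro p hp
      rw [ph_ind_rl, h1]
      exact h.zle t I p hp
    intro i
    exact ind_le.1 ((hl.min_iff (ind I)).1 h2 i)

lemma Sys.zempty (h : Sys P z) (t : Fin m) : z t ∅ = 0 := by
  obtain ⟨v, _, he⟩ := h.zmin t ∅
  rw [← he, Finset.sum_empty]

lemma Sys.zuniv (h : Sys P z) (t : Fin m) : z t univ = 0 := by
  obtain ⟨v, _, he⟩ := h.zmin t Finset.univ
  rw [← he, sum_hat]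

lemma Sys.zle' (h : Sys P z) {t : Fin m} {v : Fin d → ℤ} (hv : rl v ∈ P t)
    (I : Finset (Fin (d + 1))) : z t I ≤ ∑ q ∈ I, hat v q := by
  have := h.zle t I _ hv
  rw [ph_ind_rl] at this
  exact_mod_cast this

/-- the chain functional -/
lemma chain_arcs {I J : Finset (Fin (d + 1))} {a b : Fin (d + 1)}
    (h : ind (I ∩ J) a + ind (I ∪ J) a ≤ ind (I ∩ J) b + ind (I ∪ J) b) :
    (a ∈ I ∩ J → b ∈ I ∩ J) ∧ (a ∈ I ∪ J → b ∈ I ∪ J) := by
  unfold ind at h
  simp only [mem_inter, mem_union] at h ⊢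
  by_cases h1 : a ∈ I <;> by_cases h2 : a ∈ J <;> by_cases h3 : b ∈ I <;> by_cases h4 : b ∈ J <;>
    simp [h1, h2, h3, h4] at h ⊢ <;> (try norm_num at h)

lemma ph_add_left (F G : Fin (d + 1) → ℝ) (x : Fin d → ℝ) :
    ph (fun q => F q + G q) x = ph F x + ph G x := by
  unfold ph
  simp only [add_mul, Finset.sum_add_distrib]

lemma Sys.sup (h : Sys P z) (t : Fin m) : Sup (z t) := by
  refine ⟨h.zempty t, fun I J => ?_⟩
  obtain ⟨v, _, T, hl, _, hmin⟩ := h.loc t t (fun q => ind (I ∩ J) q + ind (I ∪ J) q)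
  have h1 := fun i => chain_arcs ((hl.min_iff _).1 hmin i)
  have h2 := (h.tight_iff hl (I ∩ J)).1 (fun i => (h1 i).1)
  have h3 := (h.tight_iff hl (I ∪ J)).1 (fun i => (h1 i).2)
  have h4 := h.zle' hl.mem I
  have h5 := h.zle' hl.mem J
  have h6 := sum_mod (hat v) I J
  linarith

lemma Sys.same (h : Sys P z) (s t : Fin m) : SameMod (z s) (z t) := by
  intro I J hIJ
  obtain ⟨v, v', T, hl, hl', hmin⟩ := h.loc s t (fun q => ind (I ∩ J) q + ind (I ∪ J) q)
  have h1 := fun i => chain_arcs ((hl.min_iff _).1 hmin i)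
  have h2 := (h.tight_iff hl (I ∩ J)).1 (fun i => (h1 i).1)
  have h3 := (h.tight_iff hl (I ∪ J)).1 (fun i => (h1 i).2)
  have h4 := h.zle' hl.mem I
  have h5 := h.zle' hl.mem J
  have h6 := sum_mod (hat v) I J
  have h7 : ∑ q ∈ I, hat v q = z s I := by linarith
  have h8 : ∑ q ∈ J, hat v q = z s J := by linarith
  have g1 := (h.tight_iff hl' _).1 ((h.tight_iff hl _).2 h7)
  have g2 := (h.tight_iff hl' _).1 ((h.tight_iff hl _).2 h8)
  have g3 := (h.tight_iff hl' (I ∩ J)).1 (fun i => (h1 i).1)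
  have g4 := (h.tight_iff hl' (I ∪ J)).1 (fun i => (h1 i).2)
  have g5 := sum_mod (hat v') I J
  linarith

lemma base_of_mem (h : Sys P z) {t : Fin m} {u : Fin d → ℤ} (hu : rl u ∈ P t) :
    Base (z t) (hat u) := by
  refine ⟨?_, fun I => h.zle' hu I⟩
  rw [h.zuniv t, sum_hat]

lemma eq_hat {y : Fin (d + 1) → ℤ} (hy : ∑ q, y q = 0) : y = hat (fun i => y i.castSucc) := by
  funext q
  rw [Fin.sum_univ_castSucc] at hy
  refine Fin.lastCases ?_ (fun q => ?_) q
  · rw [hat_last]; omega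
  · rw [hat_castSucc]

lemma mem_of_base (h : Sys P z) {t : Fin m} {u : Fin d → ℤ} (hu : Base (z t) (hat u)) :
    rl u ∈ P t := by
  by_contra hnot
  obtain ⟨f, a, hf1, hf2⟩ := geometric_hahn_banach_point_closed (h.conv t) (h.clos t) hnot
  let F : Fin (d + 1) → ℝ := Fin.snoc (α := fun _ => ℝ) (fun q => f (Pi.single q 1)) 0
  have hF : ∀ x : Fin d → ℝ, ph F x = f x := by
    intro x
    rw [ph_eq]
    simp only [F, Fin.snoc_castSucc, Fin.snoc_last, sub_zero]
    conv_rhs => rw [← Finset.univ_sum_single x, map_sum]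
    apply Finset.sum_congr rfl
    intro q _
    have : (Pi.single q (x q) : Fin d → ℝ) = x q • Pi.single q 1 := by
      rw [← Pi.single_smul, smul_eq_mul, mul_one]
    rw [this, map_smul, smul_eq_mul, mul_comm]
  obtain ⟨v, _, T, hl, _, hmin⟩ := h.loc t t F
  have hk := (hl.min_iff F).1 hmin
  have h1 : ph F (rl v) ≤ ph F (rl u) := by
    rw [expand_ph T F (rl v), expand_ph T F (rl u)]
    apply Finset.sum_le_sum
    intro i _
    apply mul_le_mul_of_nonneg_left _ (sub_nonneg.2 (hk i))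
    rw [ph_ind_rl, ph_ind_rl]
    have h2 := (h.tight_iff hl (T.R i)).1 (fun j hj => by
      by_cases hji : j = i
      · subst hji; exact absurd hj (T.ha j)
      · exact (T.hR j i hji).1 hj)
    rw [h2]
    exact_mod_cast hu.2 (T.R i)
  rw [hF, hF] at h1
  have := hf2 _ hl.mem
  linarith

lemma Sys.tre (h : Sys P z) {t : Fin m} {y : Fin (d + 1) → ℤ} (hy : Base (z t) y) :
    Tre (z t) y := by
  classical
  have hsum : ∑ q, y q = 0 := by rw [hy.1, h.zuniv t]
  have hyu := eq_hat hsum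
  set u : Fin d → ℤ := fun i => y i.castSucc with hu
  have hmem : rl u ∈ P t := mem_of_base h (by rw [← hyu]; exact hy)
  let TS : Finset (Finset (Fin (d + 1))) := univ.filter (fun I => Tight (z t) y I)
  have hTS : ∀ I, I ∈ TS ↔ Tight (z t) y I := by intro I; simp [TS]
  obtain ⟨v, _, T, hl, _, hmin⟩ := h.loc t t (∑ I ∈ TS, ind I)
  have hu' : ∀ I ∈ TS, ph (ind I) (rl u) = (z t I : ℝ) := by
    intro I hI
    have h1 := (hTS I).1 hI
    unfold Tight at h1
    rw [ph_ind_rl, ← hyu, h1]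
  have hv' : ∀ I ∈ TS, ph (ind I) (rl v) = (z t I : ℝ) := by
    have h1 := hmin _ hmem
    rw [ph_sum_left, ph_sum_left] at h1
    have h2 : ∀ I ∈ TS, ph (ind I) (rl u) ≤ ph (ind I) (rl v) := by
      intro I hI
      rw [hu' I hI]
      exact h.zle t I _ hl.mem
    have h3 := (Finset.sum_eq_sum_iff_of_le h2).1 (le_antisymm (Finset.sum_le_sum h2) h1)
    intro I hI
    rw [← h3 I hI, hu' I hI]
  have hR : ∀ i, ph (ind (T.R i)) (rl v) = (z t (T.R i) : ℝ) := by
    intro i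
    rw [ph_ind_rl, (h.tight_iff hl (T.R i)).1 (fun j hj => by
      by_cases hji : j = i
      · subst hji; exact absurd hj (T.ha j)
      · exact (T.hR j i hji).1 hj)]
  apply tre_of_rule (h.sup t) hy T {i | Tight (z t) y (T.R i)} (fun i hi => hi)
  intro p q
  constructor
  · intro hle i hi hp
    exact hle _ hi hp
  · intro hrule I hI hpI
    have hITS := (hTS I).2 hI
    have harc := (h.tight_iff hl I).2 (by
      have := hv' I hITS
      rw [ph_ind_rl] at this
      exact_mod_cast this)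
    have hk : ∀ i, 0 ≤ ind I (T.b i) - ind I (T.a i) := fun i =>
      sub_nonneg.2 (ind_le.2 (harc i))
    have hzero : ∀ i, (ind I (T.b i) - ind I (T.a i)) *
        (ph (ind (T.R i)) (rl u) - ph (ind (T.R i)) (rl v)) = 0 := by
      have h1 : ∑ i, (ind I (T.b i) - ind I (T.a i)) *
          (ph (ind (T.R i)) (rl u) - ph (ind (T.R i)) (rl v)) = 0 := by
        simp only [mul_sub, Finset.sum_sub_distrib]
        rw [← expand_ph, ← expand_ph, hu' I hITS, hv' I hITS, sub_self]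
      have h2 : ∀ i ∈ (univ : Finset (Fin d)), 0 ≤ (ind I (T.b i) - ind I (T.a i)) *
          (ph (ind (T.R i)) (rl u) - ph (ind (T.R i)) (rl v)) := by
        intro i _
        apply mul_nonneg (hk i)
        rw [hR i]
        exact sub_nonneg.2 (h.zle t _ _ hmem)
      intro i
      exact (Finset.sum_eq_zero_iff_of_nonneg h2).1 h1 i (mem_univ i)
    obtain ⟨c, hc⟩ := T.expand (ind I)
    have h3 : ind I p ≤ ind I q := by
      rw [hc p, hc q]
      apply add_le_add_right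
      apply Finset.sum_le_sum
      intro i _
      rcases mul_eq_zero.1 (hzero i) with h0 | h0
      · rw [h0]; simp
      · apply mul_le_mul_of_nonneg_left _ (hk i)
        have h4 : Tight (z t) y (T.R i) := by
          unfold Tight
          have h5 : ph (ind (T.R i)) (rl u) = (z t (T.R i) : ℝ) := by
            rw [← hR i]; linarith
          rw [ph_ind_rl, ← hyu] at h5
          exact_mod_cast h5
        have h6 := hrule i h4
        by_cases hp : p ∈ T.R i
        · simp [hp, h6 hp]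
        · simp only [hp, if_false]
          split_ifs <;> norm_num
    exact ind_le.1 h3 hpI

/-- linear functionals -/
noncomputable def phL (F : Fin (d + 1) → ℝ) : (Fin d → ℝ) →ₗ[ℝ] ℝ where
  toFun := ph F
  map_add' x y := by
    have := ph_sub F x (-y)
    have h2 := ph_smul F (-1) y
    rw [neg_smul, one_smul] at h2
    rw [sub_neg_eq_add, h2] at this
    rw [this]; ring
  map_smul' t x := by
    rw [ph_smul]; rfl

lemma exists_extreme {Q : Set (Fin d → ℝ)} (hc : IsCompact Q) (hne : Q.Nonempty)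
    (F : Fin (d + 1) → ℝ) : ∃ x ∈ Set.extremePoints ℝ Q, ∀ p ∈ Q, ph F x ≤ ph F p := by
  let l : StrongDual ℝ (Fin d → ℝ) := LinearMap.toContinuousLinearMap (-(phL F))
  have hl : ∀ x, l x = - ph F x := fun x => rfl
  have hex : IsExposed ℝ Q (l.toExposed Q) := ContinuousLinearMap.toExposed.isExposed
  have hne' : (l.toExposed Q).Nonempty := by
    obtain ⟨x, hx, hmax⟩ := hc.exists_isMaxOn hne l.continuous.continuousOn
    exact ⟨x, hx, fun y hy => hmax hy⟩
  obtain ⟨x, hx⟩ := (hex.isCompact hc).extremePoints_nonempty hne'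
  have hx' := hex.isExtreme.extremePoints_subset_extremePoints hx
  refine ⟨x, hx', fun p hp => ?_⟩
  have := hx.1.2 p hp
  rw [hl, hl] at this
  linarith

/-- from smooth polytopes with root edges to systems -/
theorem sys_of_smooth {m : ℕ} (V : Fin m → Finset (Fin d → ℤ)) (P : Fin m → Set (Fin d → ℝ))
    (hne : ∀ t, (V t).Nonempty)
    (hP : ∀ t, P t = convexHull ℝ (rl '' (V t : Set (Fin d → ℤ))))
    (hs : ∀ s t, ∀ x ∈ Set.extremePoints ℝ (P s), ∃ x' ∈ Set.extremePoints ℝ (P t),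
      ∃ w : Fin d → Fin d → ℤ, IsUnit (Matrix.det (Matrix.of w)) ∧ (∀ i, Root (w i)) ∧
        (∀ y : Fin d → ℝ, (∃ t : ℝ, 0 ≤ t ∧ ∃ p ∈ P s, y = t • (p - x)) ↔
          (∃ c : Fin d → ℝ, (∀ i, 0 ≤ c i) ∧ y = ∑ i, c i • rl (w i))) ∧
        (∀ y : Fin d → ℝ, (∃ t' : ℝ, 0 ≤ t' ∧ ∃ p ∈ P t, y = t' • (p - x')) ↔
          (∃ c : Fin d → ℝ, (∀ i, 0 ≤ c i) ∧ y = ∑ i, c i • rl (w i)))) :
    ∃ z, Sys P z := by
  classical
  refine ⟨fun t I => (V t).inf' (hne t) (fun v => ∑ q ∈ I, hat v q), ?_, ?_, ?_, ?_, ?_⟩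
  · intro t; rw [hP t]; exact convex_convexHull ℝ _
  · intro t; rw [hP t]
    exact (((V t).finite_toSet.image rl).isCompact_convexHull ℝ).isClosed
  · intro t I p hp
    rw [hP t] at hp
    have h1 : rl '' (V t : Set (Fin d → ℤ)) ⊆ {p | ((((V t).inf' (hne t)
        (fun v => ∑ q ∈ I, hat v q) : ℤ) : ℝ)) ≤ phL (ind I) p} := by
      rintro _ ⟨v, hv, rfl⟩
      show _ ≤ ph (ind I) (rl v)
      rw [ph_ind_rl]
      exact_mod_cast Finset.inf'_le (fun v => ∑ q ∈ I, hat v q) hv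
    exact convexHull_min h1 (convex_halfSpace_ge (phL (ind I)).isLinear _) hp
  · intro t I
    obtain ⟨v, hv, he⟩ := Finset.exists_mem_eq_inf' (hne t) (fun v => ∑ q ∈ I, hat v q)
    refine ⟨v, ?_, he.symm⟩
    rw [hP t]
    exact subset_convexHull ℝ _ ⟨v, hv, rfl⟩
  · intro s t F
    have hcs : IsCompact (P s) := by
      rw [hP s]; exact ((V s).finite_toSet.image rl).isCompact_convexHull ℝ
    have hns : (P s).Nonempty := by
      obtain ⟨v, hv⟩ := hne s
      exact ⟨rl v, by rw [hP s]; exact subset_convexHull ℝ _ ⟨v, hv, rfl⟩⟩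
    obtain ⟨x, hx, hmin⟩ := exists_extreme hcs hns F
    obtain ⟨x', hx', w, hdet, hroot, hc1, hc2⟩ := hs s t x hx
    obtain ⟨T, hT⟩ := exists_bs w hdet hroot
    have hloc : ∀ (Q : Set (Fin d → ℝ)) (v : Fin d → ℤ), rl v ∈ Q →
        (∀ y : Fin d → ℝ, (∃ t : ℝ, 0 ≤ t ∧ ∃ p ∈ Q, y = t • (p - rl v)) ↔
          (∃ c : Fin d → ℝ, (∀ i, 0 ≤ c i) ∧ y = ∑ i, c i • rl (w i))) → Loc Q v T := by
      intro Q v hv hcone
      refine ⟨hv, ?_, ?_⟩
      · intro p hp
        obtain ⟨c, hc, he⟩ := (hcone (p - rl v)).1 ⟨1, zero_le_one, p, hp, (one_smul ℝ _).symm⟩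
        refine ⟨c, hc, fun F => ?_⟩
        rw [← ph_sub, he, ph_sum]
        apply Finset.sum_congr rfl
        intro i _
        rw [ph_smul, ph_of_arc F (hT i)]
      · intro i
        obtain ⟨t, ht, p, hp, he⟩ := (hcone (rl (w i))).2 ⟨Pi.single i 1, fun j => by
          by_cases h : j = i
          · subst h; simp
          · simp [h], by
          rw [Finset.sum_eq_single i]
          · simp
          · intro j _ hj; simp [hj]
          · intro h; exact absurd (mem_univ i) h⟩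
        refine ⟨t, ht, p, hp, fun F => ?_⟩
        rw [← ph_sub, ← ph_smul, ← he, ph_of_arc F (hT i)]
    have hx1 : x ∈ rl '' (V s : Set (Fin d → ℤ)) := by
      rw [hP s] at hx
      exact extremePoints_convexHull_subset hx
    have hx1' : x' ∈ rl '' (V t : Set (Fin d → ℤ)) := by
      rw [hP t] at hx'
      exact extremePoints_convexHull_subset hx'
    obtain ⟨v, _, rfl⟩ := hx1
    obtain ⟨v', _, rfl⟩ := hx1'
    exact ⟨v, v', T, hloc _ v hx.1 hc1, hloc _ v' hx'.1 hc2, hmin⟩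

end Pool.Agent.Lib_helper99.GP
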