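import Pool.Agent.Lib_helper99.GP.Tree

set_option autoImplicit false
open Finset

namespace Pool.Agent.Lib_helper99.GP

variable {d : ℕ}

/-- add the coordinate that makes the sum zero -/
def hat {A : Type*} [AddCommGroup A] (v : Fin d → A) : Fin (d + 1) → A :=
  Fin.snoc (α := fun _ => A) v (-∑ i, v i)

lemma hat_castSucc {A : Type*} [AddCommGroup A] (v : Fin d → A) (q : Fin d) :
    hat v q.castSucc = v q := by
  unfold hat; rw [Fin.snoc_castSucc]

lemma hat_last {A : Type*} [AddCommGroup A] (v : Fin d → A) :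
    hat v (Fin.last d) = -∑ i, v i := by
  unfold hat; rw [Fin.snoc_last]

lemma sum_hat {A : Type*} [AddCommGroup A] (v : Fin d → A) : ∑ q, hat v q = 0 := by
  rw [Fin.sum_univ_castSucc]
  simp only [hat_castSucc, hat_last]
  abel

/-- real version of an integer vector -/
def rl (v : Fin d → ℤ) : Fin d → ℝ := fun i => (v i : ℝ)

lemma hat_rl (v : Fin d → ℤ) (q : Fin (d + 1)) : hat (rl v) q = ((hat v q : ℤ) : ℝ) := by
  refine Fin.lastCases ?_ (fun q => ?_) q
  · rw [hat_last, hat_last]; push_cast; rfl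
  · rw [hat_castSucc, hat_castSucc]; rfl

/-- pairing of a function on the ground set with a point -/
def ph (F : Fin (d + 1) → ℝ) (x : Fin d → ℝ) : ℝ := ∑ q, F q * hat x q

lemma ph_eq (F : Fin (d + 1) → ℝ) (x : Fin d → ℝ) :
    ph F x = ∑ q : Fin d, (F q.castSucc - F (Fin.last d)) * x q := by
  unfold ph
  rw [Fin.sum_univ_castSucc]
  simp only [hat_castSucc, hat_last, sub_mul, Finset.sum_sub_distrib, ← Finset.mul_sum]
  ring

lemma ph_sub (F : Fin (d + 1) → ℝ) (x y : Fin d → ℝ) : ph F (x - y) = ph F x - ph F y := by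
  simp only [ph_eq, Pi.sub_apply, mul_sub, Finset.sum_sub_distrib]

lemma ph_smul (F : Fin (d + 1) → ℝ) (t : ℝ) (x : Fin d → ℝ) : ph F (t • x) = t * ph F x := by
  simp only [ph_eq, Pi.smul_apply, smul_eq_mul, Finset.mul_sum]
  exact Finset.sum_congr rfl (fun q _ => by ring)

lemma ph_sum {ι : Type*} (s : Finset ι) (F : Fin (d + 1) → ℝ) (x : ι → Fin d → ℝ) :
    ph F (∑ i ∈ s, x i) = ∑ i ∈ s, ph F (x i) := by
  simp only [ph_eq, Finset.sum_apply, Finset.mul_sum]
  rw [Finset.sum_comm]

lemma ph_sum_left {ι : Type*} (s : Finset ι) (F : ι → Fin (d + 1) → ℝ) (x : Fin d → ℝ) :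
    ph (∑ i ∈ s, F i) x = ∑ i ∈ s, ph (F i) x := by
  unfold ph
  simp only [Finset.sum_apply, Finset.sum_mul]
  rw [Finset.sum_comm]

/-- indicator functions -/
noncomputable def ind (I : Finset (Fin (d + 1))) : Fin (d + 1) → ℝ := fun q =>
  if q ∈ I then 1 else 0

lemma ph_ind (I : Finset (Fin (d + 1))) (x : Fin d → ℝ) : ph (ind I) x = ∑ q ∈ I, hat x q := by
  unfold ph ind
  simp only [ite_mul, one_mul, zero_mul]
  rw [← Finset.sum_filter]
  apply Finset.sum_congr _ (fun _ _ => rfl)
  ext q; simp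

lemma ph_ind_rl (I : Finset (Fin (d + 1))) (v : Fin d → ℤ) :
    ph (ind I) (rl v) = ((∑ q ∈ I, hat v q : ℤ) : ℝ) := by
  rw [ph_ind]
  push_cast
  exact Finset.sum_congr rfl (fun q _ => hat_rl v q)

lemma ph_of_arc (F : Fin (d + 1) → ℝ) {w : Fin d → ℤ} {a b : Fin (d + 1)}
    (h : hat w = Pi.single b 1 - Pi.single a 1) : ph F (rl w) = F b - F a := by
  unfold ph
  have h1 : ∀ q, F q * hat (rl w) q = F q * (if q = b then 1 else 0) -
      F q * (if q = a then 1 else 0) := by
    intro q
    rw [hat_rl, h]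
    simp only [Pi.sub_apply, Pi.single_apply]
    push_cast
    ring
  rw [Finset.sum_congr rfl (fun q _ => h1 q), Finset.sum_sub_distrib]
  simp

/-- a root of type `A_d`, in the coordinates `0, …, d-1` -/
def Root (w : Fin d → ℤ) : Prop :=
  ∃ i, w = Pi.single i 1 ∨ w = -Pi.single i 1 ∨ ∃ j, w = Pi.single i 1 - Pi.single j 1

lemma arc_of_root {w : Fin d → ℤ} (h : Root w) :
    ∃ a b : Fin (d + 1), hat w = Pi.single b 1 - Pi.single a 1 := by
  have key : ∀ (i : Fin d) (q : Fin d), (Pi.single (Fin.castSucc i) (1 : ℤ) : Fin (d + 1) → ℤ)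
      q.castSucc = (Pi.single i (1 : ℤ) : Fin d → ℤ) q := by
    intro i q
    simp only [Pi.single_apply, Fin.castSucc_inj]
  have key2 : ∀ (q : Fin d), (Pi.single (Fin.last d) (1 : ℤ) : Fin (d + 1) → ℤ) q.castSucc = 0 := by
    intro q
    rw [Pi.single_eq_of_ne (Fin.castSucc_lt_last q).ne]
  have key3 : ∀ (q : Fin d), (Pi.single (Fin.castSucc q) (1 : ℤ) : Fin (d + 1) → ℤ) (Fin.last d)
      = 0 := by
    intro q
    rw [Pi.single_eq_of_ne (Fin.castSucc_lt_last q).ne']
  obtain ⟨i, rfl | rfl | ⟨j, rfl⟩⟩ := h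
  · refine ⟨Fin.last d, i.castSucc, ?_⟩
    funext q
    refine Fin.lastCases ?_ (fun q => ?_) q
    · rw [hat_last, Pi.sub_apply, key3]
      simp
    · rw [hat_castSucc, Pi.sub_apply, key, key2, sub_zero]
  · refine ⟨i.castSucc, Fin.last d, ?_⟩
    funext q
    refine Fin.lastCases ?_ (fun q => ?_) q
    · rw [hat_last, Pi.sub_apply, key3]
      simp
    · rw [hat_castSucc, Pi.sub_apply, key, key2]
      simp
  · refine ⟨j.castSucc, i.castSucc, ?_⟩
    funext q
    refine Fin.lastCases ?_ (fun q => ?_) q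
    · rw [hat_last, Pi.sub_apply, key3, key3]
      simp
    · rw [hat_castSucc, Pi.sub_apply, Pi.sub_apply, key, key]

/-- a unimodular matrix of roots gives a spanning tree -/
theorem exists_bs (w : Fin d → Fin d → ℤ) (hdet : IsUnit (Matrix.det (Matrix.of w)))
    (hroot : ∀ i, Root (w i)) :
    ∃ T : Bs (d + 1) (Fin d), ∀ i, hat (w i) = Pi.single (T.b i) 1 - Pi.single (T.a i) 1 := by
  classical
  choose a b hab using fun i => arc_of_root (hroot i)
  set g : Matrix (Fin d) (Fin d) ℤ := (Matrix.of w)⁻¹ with hg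
  have h1 : Matrix.of w * g = 1 := Matrix.mul_nonsing_inv _ hdet
  have h2 : g * Matrix.of w = 1 := Matrix.nonsing_inv_mul _ hdet
  have h1' : ∀ i k, ∑ q, w i q * g q k = if i = k then 1 else 0 := by
    intro i k
    have := congrFun (congrFun h1 i) k
    rw [Matrix.mul_apply, Matrix.one_apply] at this
    exact this
  have h2' : ∀ q k, ∑ i, g q i * w i k = if q = k then 1 else 0 := by
    intro q k
    have := congrFun (congrFun h2 q) k
    rw [Matrix.mul_apply, Matrix.one_apply] at this
    exact this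
  let f : Fin d → Fin (d + 1) → ℤ := fun k => Fin.snoc (α := fun _ => ℤ) (fun q => g q k) 0
  have hf : ∀ i k, f k (b i) - f k (a i) = if i = k then 1 else 0 := by
    intro i k
    rw [← h1' i k]
    have e1 : ∑ q, f k q * hat (w i) q = f k (b i) - f k (a i) := by
      rw [hab i]
      simp only [Pi.sub_apply, mul_sub, Finset.sum_sub_distrib, Pi.single_apply, mul_ite, mul_one,
        mul_zero, Finset.sum_ite_eq', mem_univ, if_true]
    rw [← e1, Fin.sum_univ_castSucc]
    simp only [f, Fin.snoc_castSucc, Fin.snoc_last, zero_mul, add_zero, hat_castSucc]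
    exact Finset.sum_congr rfl (fun q _ => mul_comm _ _)
  refine ⟨⟨a, b, fun k => univ.filter (fun q => f k q = f k (b k)), ?_, ?_, ?_, ?_⟩, hab⟩
  · intro k; simp
  · intro k
    simp only [mem_filter, mem_univ, true_and]
    intro h
    have := hf k k
    rw [if_pos rfl] at this
    omega
  · intro i k hik
    have := hf i k
    rw [if_neg hik] at this
    have h3 : f k (b i) = f k (a i) := by omega
    simp only [mem_filter, mem_univ, true_and, h3]
  · intro F hF
    have e1 : ∀ i, ∑ q, (w i q : ℝ) * (F q.castSucc - F (Fin.last d)) = 0 := by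
      intro i
      have := ph_of_arc F (hab i)
      rw [ph_eq, hF i, sub_self] at this
      rw [← this]
      exact Finset.sum_congr rfl (fun q _ => mul_comm _ _)
    have e2 : ∀ q : Fin d, F q.castSucc = F (Fin.last d) := by
      intro q
      have h3 : ∑ i, (g q i : ℝ) * ∑ k, (w i k : ℝ) * (F k.castSucc - F (Fin.last d)) = 0 := by
        apply Finset.sum_eq_zero
        intro i _
        rw [e1 i, mul_zero]
      have h4 : ∑ i, (g q i : ℝ) * ∑ k, (w i k : ℝ) * (F k.castSucc - F (Fin.last d)) =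
          ∑ k, (∑ i, (g q i : ℝ) * (w i k : ℝ)) * (F k.castSucc - F (Fin.last d)) := by
        simp only [Finset.mul_sum, Finset.sum_mul]
        rw [Finset.sum_comm]
        exact Finset.sum_congr rfl (fun k _ => Finset.sum_congr rfl (fun i _ => by ring))
      rw [h4] at h3
      have h5 : ∀ k, (∑ i, (g q i : ℝ) * (w i k : ℝ)) = if q = k then 1 else 0 := by
        intro k
        have := h2' q k
        have h6 : ((∑ i, g q i * w i k : ℤ) : ℝ) = ((if q = k then 1 else 0 : ℤ) : ℝ) := by
          rw [this]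
        push_cast at h6
        exact h6
      simp only [h5, ite_mul, one_mul, zero_mul, Finset.sum_ite_eq, mem_univ, if_true] at h3
      linarith
    have e3 : ∀ p, F p = F (Fin.last d) := by
      intro p
      refine Fin.lastCases rfl (fun q => e2 q) p
    intro p q
    rw [e3 p, e3 q]

end Pool.Agent.Lib_helper99.GP
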