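import Pool.Agent.Lib_helper99.GP.Main

set_option autoImplicit false
open Finset

namespace Pool.Agent.Lib_helper99.GP

variable {n : ℕ} {ι : Type} [Fintype ι]

/-- arcs `a i → b i` forming a spanning tree, with the cuts `R i` -/
structure Bs (n : ℕ) (ι : Type) where
  a : ι → Fin n
  b : ι → Fin n
  R : ι → Finset (Fin n)
  hb : ∀ k, b k ∈ R k
  ha : ∀ k, a k ∉ R k
  hR : ∀ i k, i ≠ k → (a i ∈ R k ↔ b i ∈ R k)
  hc : ∀ F : Fin n → ℝ, (∀ i, F (b i) = F (a i)) → ∀ p q, F p = F q

lemma Bs.expand (T : Bs n ι) (F : Fin n → ℝ) :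
    ∃ c : ℝ, ∀ q, F q = c + ∑ i, (F (T.b i) - F (T.a i)) * (if q ∈ T.R i then 1 else 0) := by
  classical
  rcases isEmpty_or_nonempty (Fin n) with h | ⟨⟨p⟩⟩
  · exact ⟨0, fun q => h.elim q⟩
  let G : Fin n → ℝ := fun q =>
    F q - ∑ i, (F (T.b i) - F (T.a i)) * (if q ∈ T.R i then 1 else 0)
  have hG : ∀ k, G (T.b k) = G (T.a k) := by
    intro k
    simp only [G]
    have h1 : ∀ i, (F (T.b i) - F (T.a i)) * (if T.b k ∈ T.R i then (1 : ℝ) else 0) =
        (F (T.b i) - F (T.a i)) * (if T.a k ∈ T.R i then 1 else 0) +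
          if i = k then F (T.b k) - F (T.a k) else 0 := by
      intro i
      by_cases hik : i = k
      · subst hik
        rw [if_pos (T.hb i), if_neg (T.ha i), if_pos rfl]
        ring
      · have := T.hR k i (Ne.symm hik)
        simp only [this, if_neg hik, add_zero]
    rw [Finset.sum_congr rfl (fun i _ => h1 i), Finset.sum_add_distrib, Finset.sum_ite_eq']
    simp only [mem_univ, if_true]
    ring
  refine ⟨G p, fun q => ?_⟩
  have := T.hc G hG p q
  rw [this]
  simp only [G]
  ring

omit [Fintype ι] in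
lemma Bs.cross (T : Bs n ι) {i k : ι} (hik : i ≠ k) {p₁ p₂ p₃ p₄ : Fin n}
    (h1 : p₁ ∈ T.R i) (h1' : p₁ ∈ T.R k) (h2 : p₂ ∈ T.R i) (h2' : p₂ ∉ T.R k)
    (h3 : p₃ ∉ T.R i) (h3' : p₃ ∈ T.R k) (h4 : p₄ ∉ T.R i) (h4' : p₄ ∉ T.R k) : False := by
  classical
  let α : ℝ := if T.b i ∈ T.R k then 1 else 0
  let β : ℝ := if T.b k ∈ T.R i then 1 else 0
  let G : Fin n → ℝ := fun q => (if q ∈ T.R i then (if q ∈ T.R k then 1 else 0) else 0) -
    α * (if q ∈ T.R i then 1 else 0) - β * (if q ∈ T.R k then 1 else 0)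
  have hG : ∀ l, G (T.b l) = G (T.a l) := by
    intro l
    simp only [G, α, β]
    by_cases hli : l = i
    · subst hli
      have e1 := T.hR l k hik
      have e2 := T.hb l
      have e3 := T.ha l
      simp only [e1, e2, e3, if_true, if_false]
      by_cases h : T.b l ∈ T.R k
      · simp [h]
      · simp [h]
    · by_cases hlk : l = k
      · subst hlk
        have e1 := T.hR l i (Ne.symm hik)
        have e2 := T.hb l
        have e3 := T.ha l
        simp only [e1, e2, e3, if_true, if_false]
        by_cases h : T.b l ∈ T.R i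
        · simp [h]
        · simp [h]
      · have e1 := T.hR l i hli
        have e2 := T.hR l k hlk
        simp only [e1, e2]
  have g1 := T.hc G hG p₁ p₄
  have g2 := T.hc G hG p₂ p₄
  have g3 := T.hc G hG p₃ p₄
  simp only [G, h1, h1', h2, h2', h3, h3', h4, h4', if_true, if_false] at g1 g2 g3
  linarith

/-- the tree property from the description of the exchange order by cuts of a spanning tree -/
theorem tre_of_rule {z : Finset (Fin n) → ℤ} {x : Fin n → ℤ} (hz : Sup z) (hx : Base z x)
    (T : Bs n ι) (Y : Set ι) (h1 : ∀ i ∈ Y, Tight z x (T.R i))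
    (h2 : ∀ p q, Le z x p q ↔ ∀ i ∈ Y, p ∈ T.R i → q ∈ T.R i) : Tre z x := by
  classical
  constructor
  · intro v p q hvp hvq hpv hqv
    by_cases hex : ∃ i ∈ Y, v ∉ T.R i ∧ p ∈ T.R i ∧ q ∈ T.R i
    · left
      obtain ⟨i, hi, hvi, hpi, hqi⟩ := hex
      have key : ∀ p, Le z x v p → p ∈ T.R i → Le z x (T.b i) p := by
        intro p hvp hpi
        rw [h2]
        intro k hk hbk
        by_contra hpk
        have hik : i ≠ k := by rintro rfl; exact hpk hpi
        have hvk : v ∉ T.R k := fun h => hpk ((h2 v p).1 hvp k hk h)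
        exact T.cross hik (T.hb i) hbk hpi hpk (T.ha i) ((T.hR i k hik).2 hbk) hvi hvk
      refine ⟨T.b i, ?_, ?_, key p hvp hpi, key q hvq hqi⟩
      · rw [h2]
        intro k hk hvk
        by_contra hbk
        have hik : i ≠ k := by rintro rfl; exact hvi hvk
        have hpk := (h2 v p).1 hvp k hk hvk
        exact T.cross hik hpi hpk (T.hb i) hbk hvi hvk (T.ha i)
          (fun h => hbk ((T.hR i k hik).1 h))
      · intro h
        exact hvi ((h2 _ _).1 h i hi (T.hb i))
    · right
      have hpv' : ∃ i ∈ Y, p ∈ T.R i ∧ v ∉ T.R i := by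
        by_contra hcon
        push Not at hcon
        exact hpv ((h2 p v).2 (fun i hi hp => hcon i hi hp))
      let S : Finset ι := univ.filter (fun i => i ∈ Y ∧ p ∈ T.R i ∧ v ∉ T.R i)
      have hS : ∀ i, i ∈ S ↔ i ∈ Y ∧ p ∈ T.R i ∧ v ∉ T.R i := by intro i; simp [S]
      obtain ⟨i, hiS, hmax⟩ := S.exists_max_image (fun i => (T.R i).card) (by
        obtain ⟨i, h⟩ := hpv'
        exact ⟨i, (hS i).2 h⟩)
      obtain ⟨hi, hpi, hvi⟩ := (hS i).1 hiS
      have hqi : q ∉ T.R i := fun h => hex ⟨i, hi, hvi, hpi, h⟩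
      let M₂ : Finset (Fin n) := univ.filter (fun g => ¬ Le z x g v ∧ g ∉ T.R i)
      have hM₂ : ∀ g, g ∈ M₂ ↔ ¬ Le z x g v ∧ g ∉ T.R i := by intro g; simp [M₂]
      refine ⟨T.R i, M₂, hpi, (hM₂ q).2 ⟨hqv, hqi⟩, h1 i hi, ?_, ?_, ?_⟩
      · apply tight_of_up hz hx
        intro g hg h hgh
        rw [hM₂] at hg ⊢
        refine ⟨fun hh => hg.1 (hgh.trans hh), fun hh => ?_⟩
        apply hg.1
        rw [h2]
        intro k hk hgk
        by_contra hvk
        have hik : i ≠ k := by rintro rfl; exact hg.2 hgk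
        have hhk := (h2 g h).1 hgh k hk hgk
        have hsub : T.R i ⊆ T.R k := by
          intro e he
          by_contra hek
          exact T.cross hik hh hhk he hek hg.2 hgk hvi hvk
        have h3 := hmax k ((hS k).2 ⟨hk, hsub hpi, hvk⟩)
        have h4 : (T.R i).card < (T.R k).card :=
          Finset.card_lt_card ⟨hsub, fun h' => hg.2 (h' hgk)⟩
        omega
      · rw [Finset.disjoint_left]
        intro g hg hg'
        exact ((hM₂ g).1 hg').2 hg
      · intro g
        rw [mem_union, hM₂]
        constructor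
        · intro h
          push Not at h
          by_contra hc
          exact h.1 (h.2 hc)
        · intro h
          push Not
          exact ⟨fun hg => hvi ((h2 g v).1 h i hi hg), fun hc => absurd h hc⟩
  · intro v p q hpv hqv hvp hvq
    by_cases hex : ∃ i ∈ Y, v ∈ T.R i ∧ p ∉ T.R i ∧ q ∉ T.R i
    · left
      obtain ⟨i, hi, hvi, hpi, hqi⟩ := hex
      have key : ∀ p, Le z x p v → p ∉ T.R i → Le z x p (T.a i) := by
        intro p hpv hpi
        rw [h2]
        intro k hk hpk
        by_contra hak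
        have hik : i ≠ k := by rintro rfl; exact hpi hpk
        have hvk := (h2 p v).1 hpv k hk hpk
        exact T.cross hik hvi hvk (T.hb i) (fun h => hak ((T.hR i k hik).2 h)) hpi hpk (T.ha i) hak
      refine ⟨T.a i, ?_, ?_, key p hpv hpi, key q hqv hqi⟩
      · rw [h2]
        intro k hk hak
        by_contra hvk
        have hik : i ≠ k := by rintro rfl; exact T.ha i hak
        have hpk : p ∉ T.R k := fun h => hvk ((h2 p v).1 hpv k hk h)
        exact T.cross hik (T.hb i) ((T.hR i k hik).1 hak) hvi hvk (T.ha i) hak hpi hpk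
      · intro h
        exact T.ha i ((h2 _ _).1 h i hi hvi)
    · right
      have hvp' : ∃ i ∈ Y, v ∈ T.R i ∧ p ∉ T.R i := by
        by_contra hcon
        push Not at hcon
        exact hvp ((h2 v p).2 (fun i hi hp => hcon i hi hp))
      let S : Finset ι := univ.filter (fun i => i ∈ Y ∧ v ∈ T.R i ∧ p ∉ T.R i)
      have hS : ∀ i, i ∈ S ↔ i ∈ Y ∧ v ∈ T.R i ∧ p ∉ T.R i := by intro i; simp [S]
      obtain ⟨i, hiS, hmin⟩ := S.exists_min_image (fun i => (T.R i).card) (by
        obtain ⟨i, h⟩ := hvp'
        exact ⟨i, (hS i).2 h⟩)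
      obtain ⟨hi, hvi, hpi⟩ := (hS i).1 hiS
      have hqi : q ∈ T.R i := by
        by_contra h
        exact hex ⟨i, hi, hvi, hpi, h⟩
      have hUR : ∀ g, Le z x v g → g ∈ T.R i := fun g hg => (h2 v g).1 hg i hi hvi
      let A₁ : Finset (Fin n) := univ.filter (fun g => g ∉ T.R i ∨ Le z x v g)
      have hA₁ : ∀ g, g ∈ A₁ ↔ g ∉ T.R i ∨ Le z x v g := by intro g; simp [A₁]
      refine ⟨A₁, T.R i, (hA₁ p).2 (Or.inl hpi), hpi, hqi, ?_, ?_, h1 i hi, ?_, ?_⟩
      · rw [hA₁]
        rintro (h | h)
        · exact h hqi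
        · exact hvq h
      · apply tight_of_up hz hx
        intro g hg h hgh
        rw [hA₁] at hg ⊢
        rcases hg with hg | hg
        · by_cases hh : h ∈ T.R i
          · right
            rw [h2]
            intro k hk hvk
            by_contra hhk
            have hik : i ≠ k := by rintro rfl; exact hhk hh
            have hgk : g ∉ T.R k := fun h' => hhk ((h2 g h).1 hgh k hk h')
            have hsub : T.R k ⊆ T.R i := by
              intro e he
              by_contra hei
              exact T.cross hik hvi hvk hh hhk hei he hg hgk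
            have h3 := hmin k ((hS k).2 ⟨hk, hvk, fun h' => hpi (hsub h')⟩)
            have h4 : (T.R k).card < (T.R i).card :=
              Finset.card_lt_card ⟨hsub, fun h' => hhk (h' hh)⟩
            omega
          · left; exact hh
        · right; exact hg.trans hgh
      · ext g
        rw [mem_union, hA₁]
        simp only [mem_univ, iff_true]
        tauto
      · intro g
        rw [mem_inter, hA₁]
        constructor
        · rintro ⟨h | h, h'⟩
          · exact absurd h' h
          · exact h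
        · intro h
          exact ⟨Or.inr h, hUR g h⟩

end Pool.Agent.Lib_helper99.GP
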